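import Mathlib

/-!
# Minimum weight triangulations, and triangulations that grow at their two ends
-/

open scoped Classical

namespace Pool.Agent.MP7a5e6cSEQ

/-- `E` is a triangulation of the points `f 0, …, f (n - 1)` of the Euclidean plane: a maximal set
of segments between the points such that no segment contains a third point and two segments
meet at most in common endpoints. -/
def IsTriangulation {n : ℕ} (f : Fin n → EuclideanSpace ℝ (Fin 2)) (E : SimpleGraph (Fin n)) :
    Prop :=
  (∀ a b, E.Adj a b → ∀ w, w ≠ a → w ≠ b → f w ∉ segment ℝ (f a) (f b)) ∧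
  (∀ a b c d, E.Adj a b → E.Adj c d → s(a, b) ≠ s(c, d) →
    segment ℝ (f a) (f b) ∩ segment ℝ (f c) (f d) ⊆
      ({f a, f b} ∩ {f c, f d} : Set (EuclideanSpace ℝ (Fin 2)))) ∧
  (∀ a b, a ≠ b → (∀ w, w ≠ a → w ≠ b → f w ∉ segment ℝ (f a) (f b)) →
    (∀ c d, E.Adj c d → s(a, b) ≠ s(c, d) →
      segment ℝ (f a) (f b) ∩ segment ℝ (f c) (f d) ⊆
        ({f a, f b} ∩ {f c, f d} : Set (EuclideanSpace ℝ (Fin 2)))) → E.Adj a b)

/-- Twice the sum of the lengths of all segments. -/
noncomputable def weight {n : ℕ} (f : Fin n → EuclideanSpace ℝ (Fin 2))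
    (E : SimpleGraph (Fin n)) : ℝ :=
  ∑ a : Fin n, ∑ b : Fin n, if E.Adj a b then dist (f a) (f b) else 0

/-- The graph `G` is minimum weight drawable: it is a minimum weight triangulation of some `n`
distinct points of the plane. -/
def MinWeightDrawable {n : ℕ} (G : SimpleGraph (Fin n)) : Prop :=
  ∃ f : Fin n → EuclideanSpace ℝ (Fin 2), Function.Injective f ∧ IsTriangulation f G ∧
    ∀ E : SimpleGraph (Fin n), IsTriangulation f E → weight f G ≤ weight f E

/-- `Grows G O U L`: the graph `G` induces on the vertices in the list `O` (the newest one first)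
a triangulated disc that grows at its ends; its outer cycle consists of the two paths `U` and `L`
(lists of vertices), both of which run from the left end to the right end of the disc.

* One starts from a single edge `a b` with left end `a` and right end `b`.
* A new vertex `v` is put into the outer face to the right of the right end, and it is joined
  exactly to the vertices of a path `p, …, r, …, q` of consecutive vertices of the outer cycle that
  contains the right end `r` (the last element of `U` and of `L`) and at least one more vertex:
  to the last part `p :: U₃` of `U` and to the last part `q :: L₃` of `L`. The path is not the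
  whole outer cycle (`U₁`, `L₁` are not both empty). Then `v` is the new right end.
* The picture may be turned around (so the two ends are exchanged). -/
inductive Grows {V : Type*} (G : SimpleGraph V) : List V → List V → List V → Prop
  | edge (a b : V) (h : G.Adj a b) : Grows G [b, a] [a, b] [a, b]
  | grow (O U₁ U₃ L₁ L₃ : List V) (p q v : V)
      (h : Grows G O (U₁ ++ p :: U₃) (L₁ ++ q :: L₃)) (hv : v ∉ O)
      (h1 : ¬ (U₁ = [] ∧ L₁ = [])) (h3 : ¬ (U₃ = [] ∧ L₃ = []))
      (hadj : ∀ w ∈ O, G.Adj v w ↔ w ∈ p :: U₃ ∨ w ∈ q :: L₃) :
      Grows G (v :: O) (U₁ ++ [p, v]) (L₁ ++ [q, v])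
  | flip (O U L : List V) (h : Grows G O U L) : Grows G O U.reverse L.reverse

end Pool.Agent.MP7a5e6cSEQ
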