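import Mathlib

/-!
# Minimum weight triangulations of point sets that grow by far away points

The combinatorial core: if a new point `v` is far away from the old points, then every
triangulation contains all edges from `v` to the extreme old points it sees.
-/

open scoped Classical

namespace Pool.Agent.MP7a5e6cSEQ

/-- Points of the Euclidean plane. -/
abbrev Pt := EuclideanSpace ℝ (Fin 2)

variable {V : Type*}

/-- The segments `a b` and `c d` meet at most in common endpoints. -/
def NC (f : V → Pt) (a b c d : V) : Prop :=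
  segment ℝ (f a) (f b) ∩ segment ℝ (f c) (f d) ⊆ ({f a, f b} ∩ {f c, f d} : Set Pt)

theorem NC.swapl {f : V → Pt} {a b c d : V} (h : NC f a b c d) : NC f b a c d := by
  unfold NC at *
  rw [segment_symm, Set.pair_comm (f b) (f a)]
  exact h

theorem NC.symm {f : V → Pt} {a b c d : V} (h : NC f a b c d) : NC f c d a b := by
  unfold NC at *
  rw [Set.inter_comm, Set.inter_comm ({f c, f d} : Set Pt)]
  exact h

theorem NC.swapr {f : V → Pt} {a b c d : V} (h : NC f a b c d) : NC f a b d c :=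
  h.symm.swapl.symm

/-- `E`, restricted to the vertices in `S`, is a triangulation of the points `f v`, `v ∈ S`. -/
def TriOn (f : V → Pt) (S : Set V) (E : SimpleGraph V) : Prop :=
  (∀ a ∈ S, ∀ b ∈ S, E.Adj a b → ∀ w ∈ S, w ≠ a → w ≠ b → f w ∉ segment ℝ (f a) (f b)) ∧
  (∀ a ∈ S, ∀ b ∈ S, ∀ c ∈ S, ∀ d ∈ S, E.Adj a b → E.Adj c d → s(a, b) ≠ s(c, d) →
    NC f a b c d) ∧
  (∀ a ∈ S, ∀ b ∈ S, a ≠ b → (∀ w ∈ S, w ≠ a → w ≠ b → f w ∉ segment ℝ (f a) (f b)) →
    (∀ c ∈ S, ∀ d ∈ S, E.Adj c d → s(a, b) ≠ s(c, d) → NC f a b c d) → E.Adj a b)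

/-- The data that make `v` a good new point for the old points `S`. -/
structure Stage (f : V → Pt) (S : Set V) (v : V) (G : SimpleGraph V) : Prop where
  nv : v ∉ S
  ex : ∃ w ∈ S, G.Adj w v
  vis : ∀ w ∈ S, G.Adj w v → ∃ φ : Pt →ₗ[ℝ] ℝ,
    (∀ s ∈ S, s ≠ w → φ (f s) < φ (f w)) ∧ φ (f w) < φ (f v)
  blk : ∀ a ∈ S, ¬ G.Adj a v → ∃ c ∈ S, ∃ d ∈ S, G.Adj c d ∧
    ∃ P ∈ segment ℝ (f a) (f v), P ∈ segment ℝ (f c) (f d) ∧ P ≠ f a ∧ P ≠ f v

theorem seg_val {A B P : Pt} (h : P ∈ segment ℝ A B) :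
    ∃ t : ℝ, 0 ≤ t ∧ t ≤ 1 ∧ P = A + t • (B - A) ∧
      ∀ φ : Pt →ₗ[ℝ] ℝ, φ P = φ A + t * (φ B - φ A) := by
  obtain ⟨a, b, ha, hb, hab, rfl⟩ := h
  refine ⟨b, hb, by linarith, ?_, fun φ ↦ ?_⟩
  · have : a = 1 - b := by linarith
    subst this
    module
  · have : a = 1 - b := by linarith
    subst this
    simp only [map_add, map_smul, smul_eq_mul]
    ring

section

variable {f : V → Pt} {S : Set V} {v : V} {G : SimpleGraph V} (h : Stage f S v G)

include h

theorem Stage.F1 {w a b : V} (hw : w ∈ S) (hwv : G.Adj w v) (ha : a ∈ S) (hb : b ∈ S) {P : Pt}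
    (h1 : P ∈ segment ℝ (f a) (f b)) (h2 : P ∈ segment ℝ (f w) (f v)) :
    P = f w ∧ (w = a ∨ w = b) := by
  obtain ⟨φ, hφ, hφv⟩ := h.vis w hw hwv
  obtain ⟨t, ht0, ht1, hP, hφP⟩ := seg_val h1
  obtain ⟨u, hu0, hu1, hP', hφP'⟩ := seg_val h2
  have e1 := hφP φ
  have e2 := hφP' φ
  have ha' : φ (f a) ≤ φ (f w) := by
    rcases eq_or_ne a w with rfl | hne
    · exact le_rfl
    · exact (hφ a ha hne).le
  have hb' : φ (f b) ≤ φ (f w) := by
    rcases eq_or_ne b w with rfl | hne
    · exact le_rfl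
    · exact (hφ b hb hne).le
  have e3 : φ P ≤ φ (f w) := by
    rw [e1]
    nlinarith
  have e4 : u * (φ (f v) - φ (f w)) ≤ 0 := by linarith
  have hu : u = 0 := by
    have h5 : 0 < φ (f v) - φ (f w) := by linarith
    by_contra hne
    have : 0 < u := lt_of_le_of_ne hu0 (Ne.symm hne)
    have := mul_pos this h5
    linarith
  have hPw : P = f w := by rw [hP', hu]; simp
  refine ⟨hPw, ?_⟩
  by_contra hcon
  push Not at hcon
  have h6 := hφ a ha (Ne.symm hcon.1)
  have h7 := hφ b hb (Ne.symm hcon.2)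
  rw [hPw] at e1
  rcases eq_or_lt_of_le ht0 with h8 | h8
  · rw [← h8] at e1
    linarith
  · nlinarith

theorem Stage.F2 {a b : V} (ha : a ∈ S) (hb : b ∈ S) : f v ∉ segment ℝ (f a) (f b) := by
  intro h1
  obtain ⟨w, hw, hwv⟩ := h.ex
  obtain ⟨φ, hφ, hφv⟩ := h.vis w hw hwv
  obtain ⟨t, ht0, ht1, hP, hφP⟩ := seg_val h1
  have e1 := hφP φ
  have ha' : φ (f a) ≤ φ (f w) := by
    rcases eq_or_ne a w with rfl | hne
    · exact le_rfl
    · exact (hφ a ha hne).le
  have hb' : φ (f b) ≤ φ (f w) := by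
    rcases eq_or_ne b w with rfl | hne
    · exact le_rfl
    · exact (hφ b hb hne).le
  nlinarith

theorem Stage.F3 {w u : V} (hw : w ∈ S) (hwv : G.Adj w v) (hu : u ∈ S) (hne : u ≠ w) :
    f u ∉ segment ℝ (f w) (f v) := by
  intro h1
  obtain ⟨φ, hφ, hφv⟩ := h.vis w hw hwv
  obtain ⟨t, ht0, ht1, hP, hφP⟩ := seg_val h1
  have e1 := hφP φ
  have e2 := hφ u hu hne
  nlinarith

theorem Stage.F4 {w u : V} (hw : w ∈ S) (hwv : G.Adj w v) (hu : u ∈ S) (hne : u ≠ w)
    (hn : f w ∉ segment ℝ (f u) (f v)) {P : Pt}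
    (h1 : P ∈ segment ℝ (f w) (f v)) (h2 : P ∈ segment ℝ (f u) (f v)) : P = f v := by
  have h3 := h.F3 hw hwv hu hne
  rw [segment_symm] at h1 h2 h3 hn
  obtain ⟨s, hs0, hs1, hP, -⟩ := seg_val h1
  obtain ⟨t, ht0, ht1, hP', -⟩ := seg_val h2
  by_contra hPv
  have hs : 0 < s := by
    refine lt_of_le_of_ne hs0 fun h0 ↦ hPv ?_
    rw [hP, ← h0]; simp
  have ht : 0 < t := by
    refine lt_of_le_of_ne ht0 fun h0 ↦ hPv ?_
    rw [hP', ← h0]; simp
  have key : s • (f w - f v) = t • (f u - f v) := by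
    have := hP.symm.trans hP'
    exact add_left_cancel this
  rcases le_total s t with hst | hst
  · -- u is on the segment
    refine h3 ⟨1 - s / t, s / t, ?_, by positivity, by ring, ?_⟩
    · rw [sub_nonneg, div_le_one ht]; exact hst
    · have h5 : f u - f v = (s / t) • (f w - f v) := by
        rw [div_eq_inv_mul, mul_smul, key, smul_smul, inv_mul_cancel₀ ht.ne', one_smul]
      have h6 : f u = f v + (s / t) • (f w - f v) := by rw [← h5]; abel
      rw [h6]
      module
  · refine hn ⟨1 - t / s, t / s, ?_, by positivity, by ring, ?_⟩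
    · rw [sub_nonneg, div_le_one hs]; exact hst
    · have h5 : f w - f v = (t / s) • (f u - f v) := by
        rw [div_eq_inv_mul, mul_smul, ← key, smul_smul, inv_mul_cancel₀ hs.ne', one_smul]
      have h6 : f w = f v + (t / s) • (f u - f v) := by rw [← h5]; abel
      rw [h6]
      module

theorem Stage.ncSv {w a b : V} (hw : w ∈ S) (hwv : G.Adj w v) (ha : a ∈ S) (hb : b ∈ S) :
    NC f a b w v := by
  rintro P ⟨h1, h2⟩
  obtain ⟨h3, h4⟩ := h.F1 hw hwv ha hb h1 h2
  refine ⟨?_, Or.inl h3⟩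
  rcases h4 with rfl | rfl
  · exact Or.inl h3
  · exact Or.inr h3

theorem Stage.ncvv {w u : V} (hw : w ∈ S) (hwv : G.Adj w v) (hu : u ∈ S) (hne : u ≠ w)
    (hn : f w ∉ segment ℝ (f u) (f v)) : NC f w v u v := by
  rintro P ⟨h1, h2⟩
  have h3 := h.F4 hw hwv hu hne hn h1 h2
  exact ⟨Or.inr h3, Or.inr h3⟩

/-- The new graph is a triangulation of the larger point set. -/
theorem Stage.tri (hS : TriOn f S G) : TriOn f (insert v S) G := by
  obtain ⟨hi, hii, hiii⟩ := hS
  refine ⟨?_, ?_, ?_⟩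
  · rintro a (rfl | ha) b (rfl | hb) hab w (rfl | hw) hwa hwb
    · exact absurd rfl hwa
    · exact absurd hab (G.loopless.irrefl _)
    · exact absurd rfl hwa
    · rw [segment_symm]
      exact h.F3 hb hab.symm hw hwb
    · exact absurd rfl hwb
    · exact h.F3 ha hab hw hwa
    · exact h.F2 ha hb
    · exact hi a ha b hb hab w hw hwa hwb
  · have key : ∀ a ∈ insert v S, ∀ b ∈ insert v S, ∀ w ∈ S, G.Adj a b → G.Adj w v →
        s(a, b) ≠ s(w, v) → NC f a b w v := by
      rintro a (rfl | ha) b (rfl | hb) w hw hab hwv hne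
      · exact absurd hab (G.loopless.irrefl _)
      · have hbw : b ≠ w := by
          rintro rfl
          exact hne (Sym2.eq_swap)
        exact (h.ncvv hb hab.symm hw hbw.symm (h.F3 hw hwv hb hbw)).swapl
      · have haw : a ≠ w := by
          rintro rfl
          exact hne rfl
        exact h.ncvv ha hab hw haw.symm (h.F3 hw hwv ha haw)
      · exact h.ncSv hw hwv ha hb
    intro a ha b hb c hc d hd hab hcd hne
    rcases hc with rfl | hc
    · rcases hd with rfl | hd
      · exact absurd hcd (G.loopless.irrefl _)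
      · refine (key a ha b hb d hd hab hcd.symm ?_).swapr
        rwa [Sym2.eq_swap (a := d)]
    · rcases hd with rfl | hd
      · exact key a ha b hb c hc hab hcd hne
      · rcases ha with rfl | ha
        · rcases hb with rfl | hb
          · exact absurd hab (G.loopless.irrefl _)
          · exact (h.ncSv hb hab.symm hc hd).symm.swapl
        · rcases hb with rfl | hb
          · exact (h.ncSv ha hab hc hd).symm
          · exact hii a ha b hb c hc d hd hab hcd hne
  · have key : ∀ a ∈ S, (∀ c ∈ insert v S, ∀ d ∈ insert v S, G.Adj c d → s(a, v) ≠ s(c, d) →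
        NC f a v c d) → G.Adj a v := by
      intro a ha hnc
      by_contra hcon
      obtain ⟨c, hc, d, hd, hcd, P, h1, h2, h3, h4⟩ := h.blk a ha hcon
      have h5 := hnc c (Or.inr hc) d (Or.inr hd) hcd (by
        intro h6
        have h7 : v ∈ s(c, d) := by rw [← h6]; exact Sym2.mem_mk_right a v
        rcases Sym2.mem_iff.1 h7 with h8 | h8
        · exact h.nv (h8 ▸ hc)
        · exact h.nv (h8 ▸ hd))
      rcases (h5 ⟨h1, h2⟩).1 with h6 | h6
      · exact h3 h6
      · exact h4 h6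
    rintro a (rfl | ha) b (rfl | hb) hne hno hnc
    · exact absurd rfl hne
    · refine (key b hb fun c hc d hd hcd hne' ↦ (hnc c hc d hd hcd ?_).swapl).symm
      rwa [Sym2.eq_swap (a := a)]
    · exact key a ha hnc
    · exact hiii a ha b hb hne (fun w hw ↦ hno w (Or.inr hw))
        fun c hc d hd ↦ hnc c (Or.inr hc) d (Or.inr hd)

/-- Every triangulation contains the edges to the visible extreme points. -/
theorem Stage.forced {E : SimpleGraph V} (hE : TriOn f (insert v S) E) {w : V} (hw : w ∈ S)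
    (hwv : G.Adj w v) : E.Adj w v := by
  obtain ⟨hi, hii, hiii⟩ := hE
  have hwv' : w ≠ v := hwv.ne
  refine hiii w (Or.inr hw) v (Or.inl rfl) hwv' ?_ ?_
  · rintro u (rfl | hu) huw huv
    · exact absurd rfl huv
    · exact h.F3 hw hwv hu huw
  · rintro c (rfl | hc) d (rfl | hd) hcd hne
    · exact absurd hcd (E.loopless.irrefl _)
    · have hdw : d ≠ w := by
        rintro rfl
        exact hne (Sym2.eq_swap)
      have h1 := hi c (Or.inl rfl) d (Or.inr hd) hcd w (Or.inr hw) hwv' hdw.symm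
      rw [segment_symm] at h1
      exact (h.ncvv hw hwv hd hdw h1).swapr
    · have hcw : c ≠ w := by
        rintro rfl
        exact hne rfl
      have h1 := hi c (Or.inr hc) d (Or.inl rfl) hcd w (Or.inr hw) hcw.symm hwv'
      exact h.ncvv hw hwv hc hcw h1
    · exact (h.ncSv hw hwv hc hd).symm

/-- A triangulation with no other edges at `v` restricts to one of the old point set. -/
theorem Stage.restrict {E : SimpleGraph V} (hE : TriOn f (insert v S) E)
    (hEG : ∀ w ∈ S, E.Adj w v → G.Adj w v) : TriOn f S E := by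
  obtain ⟨hi, hii, hiii⟩ := hE
  refine ⟨fun a ha b hb hab w hw ↦ hi a (Or.inr ha) b (Or.inr hb) hab w (Or.inr hw),
    fun a ha b hb c hc d hd ↦ hii a (Or.inr ha) b (Or.inr hb) c (Or.inr hc) d (Or.inr hd), ?_⟩
  intro a ha b hb hne hno hnc
  refine hiii a (Or.inr ha) b (Or.inr hb) hne ?_ ?_
  · rintro w (rfl | hw) hwa hwb
    · exact h.F2 ha hb
    · exact hno w hw hwa hwb
  · rintro c (rfl | hc) d (rfl | hd) hcd hne'
    · exact absurd hcd (E.loopless.irrefl _)
    · exact (h.ncSv hd (hEG d hd hcd.symm) ha hb).swapr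
    · exact h.ncSv hc (hEG c hc hcd) ha hb
    · exact hnc c hc d hd hcd hne'

end

/-- The weight of the part of `E` on `S` (each edge is counted twice). -/
noncomputable def wt (f : V → Pt) (S : Finset V) (E : SimpleGraph V) : ℝ :=
  ∑ a ∈ S, ∑ b ∈ S, if E.Adj a b then dist (f a) (f b) else 0

theorem wt_insert (f : V → Pt) {S : Finset V} {v : V} (hv : v ∉ S) (E : SimpleGraph V) :
    wt f (insert v S) E = wt f S E + 2 * ∑ w ∈ S, if E.Adj w v then dist (f w) (f v) else 0 := by
  unfold wt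
  rw [Finset.sum_insert hv, Finset.sum_insert hv]
  have h1 : ∀ a ∈ S, (∑ b ∈ insert v S, if E.Adj a b then dist (f a) (f b) else 0) =
      (if E.Adj a v then dist (f a) (f v) else 0) +
        ∑ b ∈ S, if E.Adj a b then dist (f a) (f b) else 0 := by
    intro a _
    rw [Finset.sum_insert hv]
  rw [Finset.sum_congr rfl h1, Finset.sum_add_distrib]
  have h2 : (∑ b ∈ S, if E.Adj v b then dist (f v) (f b) else 0) =
      ∑ w ∈ S, if E.Adj w v then dist (f w) (f v) else 0 := by
    refine Finset.sum_congr rfl fun w _ ↦ ?_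
    rw [dist_comm, E.adj_comm]
  rw [h2]
  simp only [SimpleGraph.irrefl, if_false]
  ring

/-- The induction step for minimality. -/
theorem Stage.min {f : V → Pt} {S : Finset V} {v : V} {G : SimpleGraph V}
    (h : Stage f (S : Set V) v G)
    (hfar : ∀ a ∈ S, ∑ x ∈ S, ∑ y ∈ S, dist (f x) (f y) < 2 * dist (f a) (f v))
    (hmin : ∀ E : SimpleGraph V, TriOn f (S : Set V) E →
      (∀ a ∈ S, ∀ b ∈ S, (E.Adj a b ↔ G.Adj a b)) ∨ wt f S G < wt f S E)
    (E : SimpleGraph V) (hE : TriOn f (insert v (S : Set V)) E) :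
    (∀ a ∈ insert v S, ∀ b ∈ insert v S, (E.Adj a b ↔ G.Adj a b)) ∨
      wt f (insert v S) G < wt f (insert v S) E := by
  have hv : v ∉ S := fun h1 ↦ h.nv (Finset.mem_coe.2 h1)
  rw [wt_insert f hv, wt_insert f hv]
  have hsum : (∑ w ∈ S, if G.Adj w v then dist (f w) (f v) else 0) ≤
      ∑ w ∈ S, if E.Adj w v then dist (f w) (f v) else 0 := by
    refine Finset.sum_le_sum fun w hw ↦ ?_
    by_cases hwv : G.Adj w v
    · rw [if_pos hwv, if_pos (h.forced hE (Finset.mem_coe.2 hw) hwv)]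
    · rw [if_neg hwv]
      split_ifs
      · exact dist_nonneg
      · exact le_rfl
  by_cases hEG : ∀ w ∈ S, E.Adj w v → G.Adj w v
  · have hiff : ∀ w ∈ S, (E.Adj w v ↔ G.Adj w v) := fun w hw ↦
      ⟨hEG w hw, fun h1 ↦ h.forced hE (Finset.mem_coe.2 hw) h1⟩
    rcases hmin E (h.restrict hE fun w hw ↦ hEG w (Finset.mem_coe.1 hw)) with h1 | h1
    · left
      intro a ha b hb
      rcases Finset.mem_insert.1 ha with rfl | ha' <;>
        rcases Finset.mem_insert.1 hb with rfl | hb'
      · exact ⟨fun h2 ↦ absurd h2 (E.loopless.irrefl _), fun h2 ↦ absurd h2 (G.loopless.irrefl _)⟩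
      · rw [E.adj_comm, G.adj_comm]
        exact hiff b hb'
      · exact hiff a ha'
      · exact h1 a ha' b hb'
    · right
      linarith
  · right
    push Not at hEG
    obtain ⟨a, ha, hav, hnav⟩ := hEG
    have h2 : (∑ w ∈ S, if G.Adj w v then dist (f w) (f v) else 0) + dist (f a) (f v) ≤
        ∑ w ∈ S, if E.Adj w v then dist (f w) (f v) else 0 := by
      rw [← Finset.add_sum_erase S _ ha, ← Finset.add_sum_erase S _ ha, if_neg hnav, if_pos hav]
      have h3 : (∑ w ∈ S.erase a, if G.Adj w v then dist (f w) (f v) else 0) ≤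
          ∑ w ∈ S.erase a, if E.Adj w v then dist (f w) (f v) else 0 := by
        refine Finset.sum_le_sum fun w hw ↦ ?_
        by_cases hwv : G.Adj w v
        · rw [if_pos hwv,
            if_pos (h.forced hE (Finset.mem_coe.2 (Finset.mem_of_mem_erase hw)) hwv)]
        · rw [if_neg hwv]
          split_ifs
          · exact dist_nonneg
          · exact le_rfl
      linarith
    have h4 : wt f S G ≤ ∑ x ∈ S, ∑ y ∈ S, dist (f x) (f y) := by
      unfold wt
      refine Finset.sum_le_sum fun x _ ↦ Finset.sum_le_sum fun y _ ↦ ?_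
      split_ifs
      · exact le_rfl
      · exact dist_nonneg
    have h5 : 0 ≤ wt f S E := by
      unfold wt
      refine Finset.sum_nonneg fun x _ ↦ Finset.sum_nonneg fun y _ ↦ ?_
      split_ifs
      · exact dist_nonneg
      · exact le_rfl
    have h6 := hfar a ha
    linarith

end Pool.Agent.MP7a5e6cSEQ
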