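import Pool.Agent.Lib.MP_7a5e6c_co_SEQ.TopDown

/-!
# Adding a new vertex: visibility in coordinates
-/

open Filter Topology

namespace Pool.Agent.MP7a5e6cSEQ

variable {V : Type*}

/-- From `v` one sees the extreme point `w` of `O` (coordinates `x`, `y`). -/
def VisXY (x y : V → ℝ) (O : Set V) (w v : V) : Prop :=
  ∃ α β : ℝ, (∀ s ∈ O, s ≠ w → α * x s + β * y s < α * x w + β * y w) ∧
    α * x w + β * y w < α * x v + β * y v

/-- The open segment from `a` to `v` meets an edge of `G` on `O`. -/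
def BlkXY (G : SimpleGraph V) (x y : V → ℝ) (O : Set V) (a v : V) : Prop :=
  ∃ c ∈ O, ∃ d ∈ O, G.Adj c d ∧ ∃ t u : ℝ, 0 < t ∧ t < 1 ∧ 0 ≤ u ∧ u ≤ 1 ∧
    x a + t * (x v - x a) = x c + u * (x d - x c) ∧
    y a + t * (y v - y a) = y c + u * (y d - y c)

/-- The vertex `v` is a good new vertex. -/
structure StageXY (G : SimpleGraph V) (x y : V → ℝ) (O : Set V) (v : V) : Prop where
  nv : v ∉ O
  ex : ∃ w ∈ O, G.Adj w v
  vis : ∀ w ∈ O, G.Adj w v → VisXY x y O w v
  blk : ∀ a ∈ O, ¬ G.Adj a v → BlkXY G x y O a v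

theorem VisXY.negy {x y : V → ℝ} {O : Set V} {w v : V} (h : VisXY x (-y) O w v) :
    VisXY x y O w v := by
  obtain ⟨α, β, h1, h2⟩ := h
  refine ⟨α, -β, fun s hs hsw ↦ ?_, ?_⟩
  · have := h1 s hs hsw
    simp only [Pi.neg_apply] at this
    linarith
  · simp only [Pi.neg_apply] at h2
    linarith

theorem VisXY.negx {x y : V → ℝ} {O : Set V} {w v : V} (h : VisXY x y O w v) :
    VisXY (-x) y O w v := by
  obtain ⟨α, β, h1, h2⟩ := h
  refine ⟨-α, β, fun s hs hsw ↦ ?_, ?_⟩
  · have := h1 s hs hsw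
    simp only [Pi.neg_apply]
    linarith
  · simp only [Pi.neg_apply]
    linarith

theorem BlkXY.negy {G : SimpleGraph V} {x y : V → ℝ} {O : Set V} {w v : V}
    (h : BlkXY G x (-y) O w v) : BlkXY G x y O w v := by
  obtain ⟨c, hc, d, hd, hcd, t, u, h1, h2, h3, h4, h5, h6⟩ := h
  refine ⟨c, hc, d, hd, hcd, t, u, h1, h2, h3, h4, h5, ?_⟩
  simp only [Pi.neg_apply] at h6
  linarith

theorem BlkXY.negx {G : SimpleGraph V} {x y : V → ℝ} {O : Set V} {w v : V}
    (h : BlkXY G x y O w v) : BlkXY G (-x) y O w v := by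
  obtain ⟨c, hc, d, hd, hcd, t, u, h1, h2, h3, h4, h5, h6⟩ := h
  refine ⟨c, hc, d, hd, hcd, t, u, h1, h2, h3, h4, ?_, h6⟩
  simp only [Pi.neg_apply]
  linarith

theorem StageXY.negx {G : SimpleGraph V} {x y : V → ℝ} {O : Set V} {v : V}
    (h : StageXY G x y O v) : StageXY G (-x) y O v :=
  ⟨h.nv, h.ex, fun w hw hwv ↦ (h.vis w hw hwv).negx, fun a ha hav ↦ (h.blk a ha hav).negx⟩

theorem StageXY.congr {G : SimpleGraph V} {x y x' y' : V → ℝ} {O : Set V} {v : V}
    (h : StageXY G x y O v) (hx : ∀ s, s ∈ O ∨ s = v → x' s = x s)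
    (hy : ∀ s, s ∈ O ∨ s = v → y' s = y s) : StageXY G x' y' O v := by
  refine ⟨h.nv, h.ex, fun w hw hwv ↦ ?_, fun a ha hav ↦ ?_⟩
  · obtain ⟨α, β, h1, h2⟩ := h.vis w hw hwv
    refine ⟨α, β, fun s hs hsw ↦ ?_, ?_⟩
    · rw [hx s (Or.inl hs), hy s (Or.inl hs), hx w (Or.inl hw), hy w (Or.inl hw)]
      exact h1 s hs hsw
    · rw [hx v (Or.inr rfl), hy v (Or.inr rfl), hx w (Or.inl hw), hy w (Or.inl hw)]
      exact h2
  · obtain ⟨c, hc, d, hd, hcd, t, u, h1, h2, h3, h4, h5, h6⟩ := h.blk a ha hav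
    refine ⟨c, hc, d, hd, hcd, t, u, h1, h2, h3, h4, ?_, ?_⟩
    · rw [hx a (Or.inl ha), hx v (Or.inr rfl), hx c (Or.inl hc), hx d (Or.inl hd)]
      exact h5
    · rw [hy a (Or.inl ha), hy v (Or.inr rfl), hy c (Or.inl hc), hy d (Or.inl hd)]
      exact h6

/-- The left end of a visible edge is visible. -/
theorem vis_upper [Finite V] {x y : V → ℝ} {O : Set V} {w w' v : V}
    (hx : x w < x w') (hO : ∀ s ∈ O, s ≠ w → s ≠ w' → det3 x y w w' s < 0)
    (hv : 0 < det3 x y w w' v) : VisXY x y O w v := by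
  have E1 : ∀ᶠ η in 𝓝[>] (0 : ℝ), ∀ s, s ∈ O → s ≠ w →
      det3 x y w w' s + (-(x s - x w)) * η < 0 := by
    refine eventually_all.2 fun s ↦ ?_
    rw [eventually_imp_distrib_left]
    intro hs
    rw [eventually_imp_distrib_left]
    intro hsw
    refine ev_neg ?_
    rcases eq_or_ne s w' with rfl | hsw'
    · right
      rw [det3_self']
      exact ⟨le_rfl, by linarith⟩
    · left
      exact hO s hs hsw hsw'
  have E2 : ∀ᶠ η in 𝓝[>] (0 : ℝ), -det3 x y w w' v + (x v - x w) * η < 0 :=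
    ev_neg (Or.inl (by linarith))
  obtain ⟨η, e1, e2⟩ := (E1.and E2).exists
  refine ⟨-(y w' - y w) - η, x w' - x w, fun s hs hsw ↦ ?_, ?_⟩
  · have := e1 s hs hsw
    unfold det3 at this
    linarith
  · unfold det3 at e2
    linarith

/-- Two crossing segments. -/
theorem cross {x y : V → ℝ} {w w' a v : V} (h1 : 0 < det3 x y a v w) (h2 : det3 x y a v w' ≤ 0)
    (h3 : det3 x y w w' a < 0) (h4 : 0 < det3 x y w w' v) :
    ∃ t u : ℝ, 0 < t ∧ t < 1 ∧ 0 ≤ u ∧ u ≤ 1 ∧
      x a + t * (x v - x a) = x w + u * (x w' - x w) ∧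
      y a + t * (y v - y a) = y w + u * (y w' - y w) := by
  set N : ℝ := det3 x y w w' v - det3 x y w w' a with hN
  have hN' : N = det3 x y a v w - det3 x y a v w' := by
    rw [hN]; unfold det3; ring
  have hN0 : 0 < N := by rw [hN]; linarith
  refine ⟨-det3 x y w w' a / N, det3 x y a v w / N, div_pos (by linarith) hN0, ?_,
    (div_pos h1 hN0).le, ?_, ?_, ?_⟩
  · rw [div_lt_one hN0, hN]; linarith
  · rw [div_le_one hN0, hN']; linarith
  · have key : N * (x a - x w) = det3 x y w w' a * (x v - x a) +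
        det3 x y a v w * (x w' - x w) := by
      rw [hN]; unfold det3; ring
    field_simp
    linarith
  · have key : N * (y a - y w) = det3 x y w w' a * (y v - y a) +
        det3 x y a v w * (y w' - y w) := by
      rw [hN]; unfold det3; ring
    field_simp
    linarith

/-- The line through `p` and the new vertex is above all old points. -/
theorem newline {x y : V → ℝ} {O : Set V} {U₁ U₃ : List V} {p v : V}
    (hull : UpOK O x y (U₁ ++ p :: U₃))
    (face : ∀ a b, Consec (p :: U₃) a b → 0 < det3 x y a b v)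
    (back : ∀ a b, Consec (U₁ ++ [p]) a b → det3 x y a b v < 0)
    (hpv : x p < x v) (inj : ∀ s ∈ O, x s = x p → s = p)
    (hl : ∀ s ∈ O, x s < x p → U₁ ≠ []) (hr : ∀ s ∈ O, x p < x s → U₃ ≠ [])
    (nd : (U₁ ++ [p]).Nodup) : ∀ s ∈ O, s ≠ p → det3 x y p v s < 0 := by
  intro s hs hsp
  rcases lt_trichotomy (x s) (x p) with h | h | h
  · obtain ⟨o, ho⟩ := exists_consec_left' (hl s hs h) nd
    have ho' : Consec (U₁ ++ p :: U₃) o p := (consec_append _ _ _ _ _).2 (Or.inl ho)
    exact slope_left (hull o p ho').1 h hpv (hull.le ho' hs) (back o p ho)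
  · exact absurd (inj s hs h) hsp
  · obtain ⟨c, C, rfl⟩ := List.exists_cons_of_ne_nil (hr s hs h)
    have hc : Consec (U₁ ++ p :: c :: C) p c :=
      (consec_append _ _ _ _ _).2 (Or.inr (Or.inl ⟨rfl, rfl⟩))
    exact slope_right (hull p c hc).1 h hpv (hull.le hc hs) (face p c (Or.inl ⟨rfl, rfl⟩))

/-- The new upper chain. -/
theorem hull_step {x y : V → ℝ} {O : Set V} {U₁ U₃ : List V} {p v : V}
    (hull : UpOK O x y (U₁ ++ p :: U₃))
    (back : ∀ a b, Consec (U₁ ++ [p]) a b → det3 x y a b v < 0)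
    (hpv : x p < x v) (line : ∀ s ∈ O, s ≠ p → det3 x y p v s < 0) :
    UpOK (insert v O) x y (U₁ ++ [p, v]) := by
  intro a b hab
  rcases (consec_append U₁ p [v] a b).1 hab with h | h
  · have h' : Consec (U₁ ++ p :: U₃) a b := (consec_append _ _ _ _ _).2 (Or.inl h)
    refine ⟨(hull a b h').1, ?_⟩
    rintro s (rfl | hs) hsa hsb
    · exact back a b h
    · exact (hull a b h').2 s hs hsa hsb
  · simp only [consec_cons, consec_single, or_false] at h
    obtain ⟨rfl, rfl⟩ := h
    refine ⟨hpv, ?_⟩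
    rintro s (rfl | hs) hsa hsb
    · exact absurd rfl hsb
    · exact line s hs hsa

/-- Blocked segments, upper case. -/
theorem blk_upper {G : SimpleGraph V} {x y : V → ℝ} {O : Set V} {U₁ U₃ : List V} {p v a r : V}
    (hull : UpOK O x y (U₁ ++ p :: U₃))
    (face : ∀ a b, Consec (p :: U₃) a b → 0 < det3 x y a b v)
    (line : ∀ s ∈ O, s ≠ p → det3 x y p v s < 0)
    (hadj : ∀ a b, Consec (U₁ ++ p :: U₃) a b → G.Adj a b)
    (hUO : ∀ s ∈ U₁ ++ p :: U₃, s ∈ O) (ha : a ∈ O) (haU : a ∉ p :: U₃)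
    (hlast : (p :: U₃).getLast? = some r) (hr : det3 x y a v r ≤ 0) : BlkXY G x y O a v := by
  have hp : 0 < det3 x y a v p := by
    have h1 := line a ha (by rintro rfl; exact haU (by simp))
    have h2 : det3 x y a v p = -det3 x y p v a := by unfold det3; ring
    rw [h2]; linarith
  have hlast' : (p :: U₃).getLast (by simp) = r := by
    rw [List.getLast?_eq_some_getLast (by simp)] at hlast
    exact Option.some_inj.1 hlast
  obtain ⟨w, w', hw, h1, h2⟩ := exists_sign_change (fun s ↦ det3 x y a v s) (p :: U₃) (by simp)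
    (by simpa using hp) (by rw [hlast']; exact hr)
  have hw' : Consec (U₁ ++ p :: U₃) w w' := (consec_append _ _ _ _ _).2 (Or.inr hw)
  have haw : a ≠ w := by rintro rfl; exact haU hw.mem.1
  have haw' : a ≠ w' := by rintro rfl; exact haU hw.mem.2
  obtain ⟨t, u, c⟩ := cross h1 h2 ((hull w w' hw').2 a ha haw haw') (face w w' hw)
  exact ⟨w, hUO w hw'.mem.1, w', hUO w' hw'.mem.2, hadj w w' hw', t, u, c⟩

/-- Adding the new vertex `v`. -/
theorem stage_step [Finite V] {G : SimpleGraph V} {x y : V → ℝ} {O : Set V}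
    {U₁ U₃ L₁ L₃ : List V} {p q v l r : V}
    (C : Chains x O (U₁ ++ p :: U₃) (L₁ ++ q :: L₃) l r)
    (hull : HullOn O x y (U₁ ++ p :: U₃) (L₁ ++ q :: L₃))
    (faceU : ∀ a b, Consec (p :: U₃) a b → 0 < det3 x y a b v)
    (faceL : ∀ a b, Consec (q :: L₃) a b → 0 < det3 x (-y) a b v)
    (backU : ∀ a b, Consec (U₁ ++ [p]) a b → det3 x y a b v < 0)
    (backL : ∀ a b, Consec (L₁ ++ [q]) a b → det3 x (-y) a b v < 0)
    (hvO : v ∉ O) (hxv : x r < x v)
    (hadjU : ∀ a b, Consec (U₁ ++ p :: U₃) a b → G.Adj a b)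
    (hadjL : ∀ a b, Consec (L₁ ++ q :: L₃) a b → G.Adj a b)
    (hadj : ∀ w ∈ O, G.Adj v w ↔ w ∈ p :: U₃ ∨ w ∈ q :: L₃) :
    StageXY G x y O v ∧ HullOn (insert v O) x y (U₁ ++ [p, v]) (L₁ ++ [q, v]) := by
  have hpO : p ∈ O := C.UO p (by simp)
  have hqO : q ∈ O := C.LO q (by simp)
  have hUr : (p :: U₃).getLast? = some r := by
    have := C.hUr
    rwa [List.getLast?_append_of_ne_nil _ (by simp)] at this
  have hLr : (q :: L₃).getLast? = some r := by
    have := C.hLr
    rwa [List.getLast?_append_of_ne_nil _ (by simp)] at this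
  have hrO : r ∈ O := C.UO r (List.mem_append_right _ (List.mem_of_getLast? hUr))
  have hle : ∀ s ∈ O, x s ≤ x r := by
    intro s hs
    rcases eq_or_ne s r with rfl | h
    · exact le_rfl
    · exact (C.rmax s hs h).le
  have hpv : x p < x v := (hle p hpO).trans_lt hxv
  have hqv : x q < x v := (hle q hqO).trans_lt hxv
  have hndU := nodup_of_mono C.monoU
  have hndL := nodup_of_mono C.monoL
  have lineU : ∀ s ∈ O, s ≠ p → det3 x y p v s < 0 := by
    refine newline hull.1 faceU backU hpv (fun s hs h ↦ C.inj s hs p hpO h) ?_ ?_ ?_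
    · rintro s hs hsp rfl
      have := C.hUl
      simp only [List.nil_append, List.head?_cons, Option.some.injEq] at this
      subst this
      by_cases hsp' : s = p
      · subst hsp'; exact lt_irrefl _ hsp
      · exact absurd (C.lmin s hs hsp') (not_lt.2 hsp.le)
    · rintro s hs hsp rfl
      simp only [List.getLast?_singleton, Option.some.injEq] at hUr
      subst hUr
      exact absurd (hle s hs) (not_le.2 hsp)
    · have : (U₁ ++ [p]).Sublist (U₁ ++ p :: U₃) := by
        refine List.Sublist.append (List.Sublist.refl _) ?_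
        simp
      exact this.nodup hndU
  have lineL : ∀ s ∈ O, s ≠ q → det3 x (-y) q v s < 0 := by
    refine newline hull.2 faceL backL hqv (fun s hs h ↦ C.inj s hs q hqO h) ?_ ?_ ?_
    · rintro s hs hsp rfl
      have := C.hLl
      simp only [List.nil_append, List.head?_cons, Option.some.injEq] at this
      subst this
      by_cases hsp' : s = q
      · subst hsp'; exact lt_irrefl _ hsp
      · exact absurd (C.lmin s hs hsp') (not_lt.2 hsp.le)
    · rintro s hs hsp rfl
      simp only [List.getLast?_singleton, Option.some.injEq] at hLr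
      subst hLr
      exact absurd (hle s hs) (not_le.2 hsp)
    · have : (L₁ ++ [q]).Sublist (L₁ ++ q :: L₃) := by
        refine List.Sublist.append (List.Sublist.refl _) ?_
        simp
      exact this.nodup hndL
  refine ⟨⟨hvO, ⟨r, hrO, ((hadj r hrO).2 (Or.inl (List.mem_of_getLast? hUr))).symm⟩, ?_, ?_⟩,
    hull_step hull.1 backU hpv lineU, hull_step hull.2 backL hqv lineL⟩
  · intro w hw hwv
    by_cases hwr : w = r
    · subst hwr
      refine ⟨1, 0, fun s hs hsw ↦ ?_, ?_⟩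
      · have := C.rmax s hs hsw
        linarith
      · linarith
    · rcases (hadj w hw).1 hwv.symm with h | h
      · obtain ⟨w', hw'⟩ := exists_consec' hUr h hwr
        have hw'' : Consec (U₁ ++ p :: U₃) w w' := (consec_append _ _ _ _ _).2 (Or.inr hw')
        exact vis_upper (hull.1 w w' hw'').1 (hull.1 w w' hw'').2 (faceU w w' hw')
      · obtain ⟨w', hw'⟩ := exists_consec' hLr h hwr
        have hw'' : Consec (L₁ ++ q :: L₃) w w' := (consec_append _ _ _ _ _).2 (Or.inr hw')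
        exact (vis_upper (hull.2 w w' hw'').1 (hull.2 w w' hw'').2 (faceL w w' hw')).negy
  · intro a ha hav
    have hna : ¬ (a ∈ p :: U₃ ∨ a ∈ q :: L₃) := fun h ↦ hav ((hadj a ha).2 h).symm
    by_cases hr : det3 x y a v r ≤ 0
    · exact blk_upper hull.1 faceU lineU hadjU C.UO ha (fun h ↦ hna (Or.inl h)) hUr hr
    · refine (blk_upper hull.2 faceL lineL hadjL C.LO ha (fun h ↦ hna (Or.inr h)) hLr ?_).negy
      rw [det3_neg]
      linarith

end Pool.Agent.MP7a5e6cSEQ
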