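import Pool.Agent.Lib.MP_7a5e6c_co_SEQ.Defs
import Pool.Agent.Lib.MP_7a5e6c_co_SEQ.Step

/-!
# Triangulations that grow at their two ends
-/

open Filter Topology

namespace Pool.Agent.MP7a5e6cSEQ

variable {V : Type*}

/-- The same with first coordinates `x`. -/
inductive GrowsX (G : SimpleGraph V) : (V → ℝ) → List V → List V → List V → Prop
  | edge (x : V → ℝ) (a b : V) (h : G.Adj a b) (hx : x a < x b) : GrowsX G x [b, a] [a, b] [a, b]
  | grow (x : V → ℝ) (O U₁ U₃ L₁ L₃ : List V) (p q v : V)
      (h : GrowsX G x O (U₁ ++ p :: U₃) (L₁ ++ q :: L₃)) (hv : v ∉ O)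
      (h1 : ¬ (U₁ = [] ∧ L₁ = [])) (h3 : ¬ (U₃ = [] ∧ L₃ = []))
      (hadj : ∀ w ∈ O, G.Adj v w ↔ w ∈ p :: U₃ ∨ w ∈ q :: L₃) (hx : ∀ w ∈ O, x w < x v) :
      GrowsX G x (v :: O) (U₁ ++ [p, v]) (L₁ ++ [q, v])
  | flip (x : V → ℝ) (O U L : List V) (h : GrowsX G x O U L) :
      GrowsX G (-x) O U.reverse L.reverse

/-- Every vertex is far away from the earlier ones. -/
noncomputable def FarX (x : V → ℝ) : List V → Prop
  | [] => True
  | v :: O => FarX x O ∧
      ∀ w ∈ O, (O.map fun a ↦ (O.map fun b ↦ |x a - x b|).sum).sum + 1 < 2 * |x w - x v|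

/-- All vertices were good new vertices. -/
def StagesXY (G : SimpleGraph V) (x y : V → ℝ) : List V → Prop
  | [] => True
  | v :: O => StagesXY G x y O ∧ (O = [] ∨ StageXY G x y {s | s ∈ O} v)

theorem GrowsX.mem {G : SimpleGraph V} {x : V → ℝ} {O U L : List V} (h : GrowsX G x O U L) :
    ∀ s, s ∈ U ∨ s ∈ L → s ∈ O := by
  induction h with
  | edge x a b h hx =>
    intro s hs
    simp only [List.mem_cons, List.not_mem_nil, or_false] at hs ⊢
    tauto
  | grow x O U₁ U₃ L₁ L₃ p q v h hv h1 h3 hadj hx ih =>
    intro s hs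
    have hp : p ∈ O := ih p (Or.inl (by simp))
    have hq : q ∈ O := ih q (Or.inr (by simp))
    have hU : ∀ s ∈ U₁, s ∈ O := fun s hs ↦ ih s (Or.inl (by simp [hs]))
    have hL : ∀ s ∈ L₁, s ∈ O := fun s hs ↦ ih s (Or.inr (by simp [hs]))
    simp only [List.mem_append, List.mem_cons, List.not_mem_nil, or_false] at hs ⊢
    rcases hs with (h' | rfl | h') | (h' | rfl | h')
    · exact Or.inr (hU s h')
    · exact Or.inr hp
    · exact Or.inl h'
    · exact Or.inr (hL s h')
    · exact Or.inr hq
    · exact Or.inl h'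
  | flip x O U L h ih =>
    intro s hs
    exact ih s (by simpa using hs)

theorem GrowsX.congr {G : SimpleGraph V} {x : V → ℝ} {O U L : List V} (h : GrowsX G x O U L) :
    ∀ x' : V → ℝ, (∀ s ∈ O, x' s = x s) → GrowsX G x' O U L := by
  induction h with
  | edge x a b h hx =>
    intro x' hx'
    refine GrowsX.edge x' a b h ?_
    rw [hx' a (by simp), hx' b (by simp)]
    exact hx
  | grow x O U₁ U₃ L₁ L₃ p q v h hv h1 h3 hadj hx ih =>
    intro x' hx'
    refine GrowsX.grow x' O U₁ U₃ L₁ L₃ p q v
      (ih x' fun s hs ↦ hx' s (List.mem_cons_of_mem _ hs)) hv h1 h3 hadj fun w hw ↦ ?_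
    rw [hx' w (List.mem_cons_of_mem _ hw), hx' v (by simp)]
    exact hx w hw
  | flip x O U L h ih =>
    intro x' hx'
    have h1 := GrowsX.flip (-x') O U L (ih (-x') fun s hs ↦ by
      rw [Pi.neg_apply, hx' s hs, Pi.neg_apply, neg_neg])
    rwa [neg_neg] at h1

theorem FarX.congr {x x' : V → ℝ} {O : List V} (h : FarX x O) (hx : ∀ s ∈ O, x' s = x s) :
    FarX x' O := by
  induction O with
  | nil => trivial
  | cons v O ih =>
    obtain ⟨h1, h2⟩ := h
    refine ⟨ih h1 fun s hs ↦ hx s (List.mem_cons_of_mem _ hs), fun w hw ↦ ?_⟩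
    have h3 : (O.map fun a ↦ (O.map fun b ↦ |x' a - x' b|).sum) =
        (O.map fun a ↦ (O.map fun b ↦ |x a - x b|).sum) := by
      refine List.map_congr_left fun a ha ↦ ?_
      congr 1
      refine List.map_congr_left fun b hb ↦ ?_
      rw [hx a (List.mem_cons_of_mem _ ha), hx b (List.mem_cons_of_mem _ hb)]
    rw [h3, hx w (List.mem_cons_of_mem _ hw), hx v (by simp)]
    exact h2 w hw

theorem FarX.neg {x : V → ℝ} {O : List V} (h : FarX x O) : FarX (-x) O := by
  induction O with
  | nil => trivial
  | cons v O ih =>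
    obtain ⟨h1, h2⟩ := h
    refine ⟨ih h1, fun w hw ↦ ?_⟩
    have h4 : ∀ a b : V, |(-x) a - (-x) b| = |x a - x b| := by
      intro a b
      rw [Pi.neg_apply, Pi.neg_apply, ← abs_neg]
      congr 1
      ring
    simp only [h4]
    exact h2 w hw

theorem Grows.exists_x {G : SimpleGraph V} {O U L : List V} (h : Grows G O U L) :
    ∃ x : V → ℝ, GrowsX G x O U L ∧ FarX x O := by
  classical
  induction h with
  | edge a b h =>
    refine ⟨fun s ↦ if s = b then 1 else 0, ?_, ?_⟩
    · refine GrowsX.edge _ a b h ?_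
      rw [if_neg h.ne, if_pos rfl]
      exact zero_lt_one
    · refine ⟨⟨trivial, fun w hw ↦ by simp at hw⟩, fun w hw ↦ ?_⟩
      simp only [List.mem_cons, List.not_mem_nil, or_false] at hw
      subst hw
      simp [h.ne]
  | grow O U₁ U₃ L₁ L₃ p q v h hv h1 h3 hadj ih =>
    obtain ⟨x, hx, hfar⟩ := ih
    have hbd : ∃ M : ℝ, ∀ w ∈ O, x w ≤ M := by
      refine ⟨∑ w ∈ O.toFinset, |x w|, fun w hw ↦ (le_abs_self _).trans ?_⟩
      exact Finset.single_le_sum (f := fun w ↦ |x w|) (fun _ _ ↦ abs_nonneg _)
        (List.mem_toFinset.2 hw)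
    obtain ⟨M, hM⟩ := hbd
    set S : ℝ := (O.map fun a ↦ (O.map fun b ↦ |x a - x b|).sum).sum with hS
    have hS0 : 0 ≤ S := by
      refine List.sum_nonneg fun s hs ↦ ?_
      obtain ⟨a, _, rfl⟩ := List.mem_map.1 hs
      refine List.sum_nonneg fun s hs ↦ ?_
      obtain ⟨b, _, rfl⟩ := List.mem_map.1 hs
      exact abs_nonneg _
    let x' : V → ℝ := Function.update x v (M + S + 1)
    have hx'v : x' v = M + S + 1 := Function.update_self _ _ _
    have hx' : ∀ s ∈ O, x' s = x s := fun s hs ↦
      Function.update_of_ne (by rintro rfl; exact hv hs) _ _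
    refine ⟨x', GrowsX.grow x' O U₁ U₃ L₁ L₃ p q v (hx.congr x' hx') hv h1 h3 hadj
      fun w hw ↦ ?_, hfar.congr hx', fun w hw ↦ ?_⟩
    · rw [hx' w hw, hx'v]
      have := hM w hw
      linarith
    · have h5 : (O.map fun a ↦ (O.map fun b ↦ |x' a - x' b|).sum) =
          (O.map fun a ↦ (O.map fun b ↦ |x a - x b|).sum) := by
        refine List.map_congr_left fun a ha ↦ ?_
        congr 1
        refine List.map_congr_left fun b hb ↦ ?_
        rw [hx' a ha, hx' b hb]
      rw [h5, ← hS, hx' w hw, hx'v, abs_sub_comm, abs_of_nonneg]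
      · have := hM w hw
        linarith
      · have := hM w hw
        linarith
  | flip O U L h ih =>
    obtain ⟨x, hx, hfar⟩ := ih
    exact ⟨-x, GrowsX.flip x O U L hx, hfar.neg⟩

theorem Chains.flip {x : V → ℝ} {O : Set V} {U L : List V} {l r : V}
    (C : Chains x O U L l r) : Chains (-x) O U.reverse L.reverse r l where
  hUl := by rw [List.head?_reverse]; exact C.hUr
  hLl := by rw [List.head?_reverse]; exact C.hLr
  hUr := by rw [List.getLast?_reverse]; exact C.hUl
  hLr := by rw [List.getLast?_reverse]; exact C.hLl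
  lr := C.lr.symm
  UO := fun s hs ↦ C.UO s (by simpa using hs)
  LO := fun s hs ↦ C.LO s (by simpa using hs)
  disj := fun s h1 h2 ↦ (C.disj s (by simpa using h1) (by simpa using h2)).symm
  monoU := by
    rw [List.pairwise_reverse]
    exact C.monoU.imp fun h ↦ neg_lt_neg h
  monoL := by
    rw [List.pairwise_reverse]
    exact C.monoL.imp fun h ↦ neg_lt_neg h
  rmax := fun s hs h ↦ neg_lt_neg (C.lmin s hs h)
  lmin := fun s hs h ↦ neg_lt_neg (C.rmax s hs h)
  inj := fun s hs t ht h ↦ C.inj s hs t ht (neg_inj.1 h)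

theorem GrowsX.chains {G : SimpleGraph V} {x : V → ℝ} {O U L : List V} (h : GrowsX G x O U L) :
    ∃ l r, Chains x {s | s ∈ O} U L l r := by
  induction h with
  | edge x a b h hx =>
    refine ⟨a, b, ⟨rfl, rfl, rfl, rfl, h.ne, ?_, ?_, ?_, ?_, ?_, ?_, ?_, ?_⟩⟩
    · intro s hs
      simp only [List.mem_cons, List.not_mem_nil, or_false, Set.mem_ofPred_eq] at hs ⊢
      exact hs.symm
    · intro s hs
      simp only [List.mem_cons, List.not_mem_nil, or_false, Set.mem_ofPred_eq] at hs ⊢
      exact hs.symm
    · intro s hs _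
      simpa using hs
    · simpa using hx
    · simpa using hx
    · intro s hs hsb
      simp only [List.mem_cons, List.not_mem_nil, or_false, Set.mem_ofPred_eq] at hs
      rcases hs with rfl | rfl
      · exact absurd rfl hsb
      · exact hx
    · intro s hs hsa
      simp only [List.mem_cons, List.not_mem_nil, or_false, Set.mem_ofPred_eq] at hs
      rcases hs with rfl | rfl
      · exact hx
      · exact absurd rfl hsa
    · intro s hs t ht hst
      simp only [List.mem_cons, List.not_mem_nil, or_false, Set.mem_ofPred_eq] at hs ht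
      rcases hs with rfl | rfl <;> rcases ht with rfl | rfl
      · rfl
      · exact absurd hst hx.ne'
      · exact absurd hst hx.ne
      · rfl
  | grow x O U₁ U₃ L₁ L₃ p q v h hv h1 h3 hadj hx ih =>
    obtain ⟨l, r, C⟩ := ih
    have hUr : (p :: U₃).getLast? = some r := by
      have := C.hUr
      rwa [List.getLast?_append_of_ne_nil _ (by simp)] at this
    have hLr : (q :: L₃).getLast? = some r := by
      have := C.hLr
      rwa [List.getLast?_append_of_ne_nil _ (by simp)] at this
    have hndU := nodup_of_mono C.monoU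
    have hndL := nodup_of_mono C.monoL
    have hU1O : ∀ s ∈ U₁ ++ [p], s ∈ O := fun s hs ↦ C.UO s (mem_head_sub hs)
    have hL1O : ∀ s ∈ L₁ ++ [q], s ∈ O := fun s hs ↦ C.LO s (mem_head_sub hs)
    have hlO : l ∈ O := C.UO l (List.mem_of_mem_head? (by rw [C.hUl]; rfl))
    -- `r` is not on both remaining parts
    have key : ∀ (A B : List V) (z : V), (A ++ z :: B).Nodup → (z :: B).getLast? = some r →
        r ∈ A ++ [z] → B = [] := by
      intro A B z hn hg hr
      by_contra hne
      obtain ⟨c, B', rfl⟩ := List.exists_cons_of_ne_nil hne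
      rw [List.getLast?_cons_cons] at hg
      have h5 : r ∈ c :: B' := List.mem_of_getLast? hg
      rcases List.mem_append.1 hr with h6 | h6
      · exact (List.nodup_append.1 hn).2.2 r h6 r (List.mem_cons_of_mem _ h5) rfl
      · rw [List.mem_singleton.1 h6] at h5
        exact (List.nodup_cons.1 (List.nodup_append.1 hn).2.1).1 h5
    have head1 : ∀ (A B : List V) (z : V), (A ++ z :: B).head? = some l →
        (A ++ [z, v]).head? = some l := by
      intro A B z hh
      cases A with
      | nil => simpa using hh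
      | cons c A => simpa using hh
    have mono1 : ∀ (A B : List V) (z : V), (A ++ z :: B).Pairwise (fun a b ↦ x a < x b) →
        (∀ s ∈ A ++ [z], s ∈ O) → (A ++ [z, v]).Pairwise (fun a b ↦ x a < x b) := by
      intro A B z hm hO
      rw [List.pairwise_append] at hm ⊢
      refine ⟨hm.1, ?_, ?_⟩
      · simp only [List.pairwise_cons, List.mem_cons, List.not_mem_nil, or_false, forall_eq,
          IsEmpty.forall_iff, implies_true, List.Pairwise.nil, and_true]
        exact hx z (hO z (by simp))
      · intro a ha b hb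
        simp only [List.mem_cons, List.not_mem_nil, or_false] at hb
        rcases hb with rfl | rfl
        · exact hm.2.2 a ha b (by simp)
        · exact hx a (hO a (by simp [ha]))
    have split : ∀ (A : List V) (z s : V), s ∈ A ++ [z, v] → s ∈ A ++ [z] ∨ s = v := by
      intro A z s hs
      simp only [List.mem_append, List.mem_cons, List.not_mem_nil, or_false] at hs ⊢
      rcases hs with h | h | h
      · exact Or.inl (Or.inl h)
      · exact Or.inl (Or.inr h)
      · exact Or.inr h
    refine ⟨l, v, ⟨head1 _ _ _ C.hUl, head1 _ _ _ C.hLl, by simp, by simp, ?_, ?_, ?_, ?_,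
      mono1 _ _ _ C.monoU hU1O, mono1 _ _ _ C.monoL hL1O, ?_, ?_, ?_⟩⟩
    · rintro rfl
      exact hv hlO
    · intro s hs
      rcases split _ _ _ hs with h' | h'
      · exact List.mem_cons_of_mem _ (hU1O s h')
      · rw [h']; exact List.mem_cons_self
    · intro s hs
      rcases split _ _ _ hs with h' | h'
      · exact List.mem_cons_of_mem _ (hL1O s h')
      · rw [h']; exact List.mem_cons_self
    · intro s hsU hsL
      rcases split _ _ _ hsU with hU' | hU'
      · rcases split _ _ _ hsL with hL' | hL'
        · rcases C.disj s (mem_head_sub hU') (mem_head_sub hL') with h' | h'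
          · exact Or.inl h'
          · subst h'
            exact absurd ⟨key _ _ _ hndU hUr hU', key _ _ _ hndL hLr hL'⟩ h3
        · exact Or.inr hL'
      · exact Or.inr hU'
    · intro s hs hsv
      rcases List.mem_cons.1 hs with h' | h'
      · exact absurd h' hsv
      · exact hx s h'
    · intro s hs hsl
      rcases List.mem_cons.1 hs with h' | h'
      · rw [h']; exact hx l hlO
      · exact C.lmin s h' hsl
    · intro s hs t ht hst
      rcases List.mem_cons.1 hs with h' | h' <;> rcases List.mem_cons.1 ht with h'' | h''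
      · rw [h', h'']
      · subst h'
        exact absurd hst (hx t h'').ne'
      · subst h''
        exact absurd hst (hx s h').ne
      · exact C.inj s h' t h'' hst
  | flip x O U L h ih =>
    obtain ⟨l, r, C⟩ := ih
    exact ⟨r, l, C.flip⟩

theorem GrowsX.adj {G : SimpleGraph V} {x : V → ℝ} {O U L : List V} (h : GrowsX G x O U L) :
    (∀ a b, Consec U a b → G.Adj a b) ∧ (∀ a b, Consec L a b → G.Adj a b) := by
  induction h with
  | edge x a b h hx =>
    constructor <;>
    · intro c d hcd
      simp only [consec_cons, consec_single, or_false] at hcd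
      rw [hcd.1, hcd.2]
      exact h
  | grow x O U₁ U₃ L₁ L₃ p q v h hv h1 h3 hadj hx ih =>
    have hpO : p ∈ O := h.mem p (Or.inl (by simp))
    have hqO : q ∈ O := h.mem q (Or.inr (by simp))
    constructor
    · intro a b hab
      rcases (consec_append U₁ p [v] a b).1 hab with h' | h'
      · exact ih.1 a b ((consec_append _ _ _ _ _).2 (Or.inl h'))
      · simp only [consec_cons, consec_single, or_false] at h'
        rw [h'.1, h'.2]
        exact ((hadj p hpO).2 (Or.inl (by simp))).symm
    · intro a b hab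
      rcases (consec_append L₁ q [v] a b).1 hab with h' | h'
      · exact ih.2 a b ((consec_append _ _ _ _ _).2 (Or.inl h'))
      · simp only [consec_cons, consec_single, or_false] at h'
        rw [h'.1, h'.2]
        exact ((hadj q hqO).2 (Or.inr (by simp))).symm
  | flip x O U L h ih =>
    constructor
    · intro a b hab
      exact (ih.1 b a ((consec_reverse _ _ _).1 hab)).symm
    · intro a b hab
      exact (ih.2 b a ((consec_reverse _ _ _).1 hab)).symm

theorem StagesXY.congr {G : SimpleGraph V} {x y y' : V → ℝ} {O : List V}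
    (h : StagesXY G x y O) (hy : ∀ s ∈ O, y' s = y s) : StagesXY G x y' O := by
  induction O with
  | nil => trivial
  | cons v O ih =>
    obtain ⟨h1, h2⟩ := h
    refine ⟨ih h1 fun s hs ↦ hy s (List.mem_cons_of_mem _ hs), ?_⟩
    rcases h2 with h2 | h2
    · exact Or.inl h2
    · refine Or.inr (h2.congr (fun _ _ ↦ rfl) ?_)
      rintro s (hs | rfl)
      · exact hy s (List.mem_cons_of_mem _ hs)
      · exact hy s (by simp)

theorem StagesXY.negx {G : SimpleGraph V} {x y : V → ℝ} {O : List V}
    (h : StagesXY G x y O) : StagesXY G (-x) y O := by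
  induction O with
  | nil => trivial
  | cons v O ih =>
    obtain ⟨h1, h2⟩ := h
    exact ⟨ih h1, h2.imp id StageXY.negx⟩

/-- The main induction: heights for all vertices. -/
theorem GrowsX.main [Finite V] {G : SimpleGraph V} {x : V → ℝ} {O U L : List V}
    (h : GrowsX G x O U L) :
    ∀ y : V → ℝ, HullOn {s | s ∈ U ∨ s ∈ L} x y U L →
      ∃ y' : V → ℝ, (∀ s, s ∈ U ∨ s ∈ L → y' s = y s) ∧ HullOn {s | s ∈ O} x y' U L ∧
        StagesXY G x y' O := by
  classical
  induction h with
  | edge x a b h hx =>
    intro y hy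
    refine ⟨y, fun _ _ ↦ rfl, ⟨hy.1.mono ?_, hy.2.mono ?_⟩, ⟨⟨trivial, Or.inl rfl⟩, Or.inr ?_⟩⟩
    · intro s hs
      simp only [List.mem_cons, List.not_mem_nil, or_false, Set.mem_ofPred_eq, or_self] at hs ⊢
      exact hs.symm
    · intro s hs
      simp only [List.mem_cons, List.not_mem_nil, or_false, Set.mem_ofPred_eq, or_self] at hs ⊢
      exact hs.symm
    · refine ⟨?_, ⟨a, by simp, h⟩, ?_, ?_⟩
      · simp only [List.mem_cons, List.not_mem_nil, or_false, Set.mem_ofPred_eq]
        exact h.ne'
      · intro w hw _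
        simp only [List.mem_cons, List.not_mem_nil, or_false, Set.mem_ofPred_eq] at hw
        subst hw
        refine ⟨1, 0, fun s hs hsw ↦ ?_, by linarith⟩
        simp only [List.mem_cons, List.not_mem_nil, or_false, Set.mem_ofPred_eq] at hs
        exact absurd hs hsw
      · intro w hw hwb
        simp only [List.mem_cons, List.not_mem_nil, or_false, Set.mem_ofPred_eq] at hw
        subst hw
        exact absurd h hwb
  | grow x O U₁ U₃ L₁ L₃ p q v h hv h1 h3 hadj hx ih =>
    intro y hy
    obtain ⟨l, r, C⟩ := h.chains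
    have hrO : r ∈ O := C.UO r (List.mem_of_getLast? C.hUr)
    obtain ⟨y1, k1, k2, k3, k4⟩ := topdown C hv (hx r hrO) h1 h3 hy
    obtain ⟨y2, m1, m2, m3⟩ := ih y1 k2
    let y3 : V → ℝ := Function.update y2 v (y v)
    have hy3v : y3 v = y v := Function.update_self _ _ _
    have hy3 : ∀ s ∈ O, y3 s = y2 s := fun s hs ↦
      Function.update_of_ne (by rintro rfl; exact hv hs) _ _
    have hy3' : ∀ s, s ∈ U₁ ++ p :: U₃ ∨ s ∈ L₁ ++ q :: L₃ → y3 s = y1 s := by
      intro s hs
      rw [hy3 s (h.mem s hs), m1 s hs]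
    have hvy : y1 v = y v := k1 v (Or.inl (by simp))
    have hy3v' : y3 v = y1 v := by rw [hy3v, hvy]
    have agree : ∀ s, s ∈ U₁ ++ [p, v] ∨ s ∈ L₁ ++ [q, v] → y3 s = y s := by
      intro s hs
      by_cases hsv : s = v
      · rw [hsv, hy3v]
      · rw [hy3' s, k1 s hs]
        rcases hs with hs | hs
        · left
          refine mem_head_sub ?_
          simp only [List.mem_append, List.mem_cons, List.not_mem_nil, or_false] at hs ⊢
          rcases hs with h' | h' | h'
          · exact Or.inl h'
          · exact Or.inr h'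
          · exact absurd h' hsv
        · right
          refine mem_head_sub ?_
          simp only [List.mem_append, List.mem_cons, List.not_mem_nil, or_false] at hs ⊢
          rcases hs with h' | h' | h'
          · exact Or.inl h'
          · exact Or.inr h'
          · exact absurd h' hsv
    have conU : ∀ a b, Consec (p :: U₃) a b → Consec (U₁ ++ p :: U₃) a b :=
      fun a b hab ↦ (consec_append _ _ _ _ _).2 (Or.inr hab)
    have conL : ∀ a b, Consec (q :: L₃) a b → Consec (L₁ ++ q :: L₃) a b :=
      fun a b hab ↦ (consec_append _ _ _ _ _).2 (Or.inr hab)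
    have hvU : v ∉ U₁ ++ [p] := fun h' ↦ hv (C.UO v (mem_head_sub h'))
    have hvL : v ∉ L₁ ++ [q] := fun h' ↦ hv (C.LO v (mem_head_sub h'))
    have hull3 : HullOn {s | s ∈ O} x y3 (U₁ ++ p :: U₃) (L₁ ++ q :: L₃) :=
      ⟨m2.1.congr (fun w hw ↦ C.UO w hw) hy3, m2.2.congr (fun w hw ↦ C.LO w hw)
        fun w hw ↦ by rw [Pi.neg_apply, Pi.neg_apply, hy3 w hw]⟩
    have stage3 : StagesXY G x y3 O := m3.congr hy3
    obtain ⟨s1, s2⟩ := stage_step (G := G) C hull3
      (by
        intro a b hab
        have h5 := k3 a b hab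
        unfold det3 at *
        rw [hy3' a (Or.inl (conU a b hab).mem.1), hy3' b (Or.inl (conU a b hab).mem.2), hy3v']
        exact h5)
      (by
        intro a b hab
        have h5 := k4 a b hab
        unfold det3 at *
        simp only [Pi.neg_apply] at h5 ⊢
        rw [hy3' a (Or.inr (conL a b hab).mem.1), hy3' b (Or.inr (conL a b hab).mem.2), hy3v']
        exact h5)
      (by
        intro a b hab
        have hab' : Consec (U₁ ++ [p, v]) a b := (consec_append U₁ p [v] a b).2 (Or.inl hab)
        have h5 := (hy.1 a b hab').2 v (Or.inl (by simp)) (by rintro rfl; exact hvU hab.mem.1)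
          (by rintro rfl; exact hvU hab.mem.2)
        unfold det3 at *
        rw [agree a (Or.inl hab'.mem.1), agree b (Or.inl hab'.mem.2), hy3v]
        exact h5)
      (by
        intro a b hab
        have hab' : Consec (L₁ ++ [q, v]) a b := (consec_append L₁ q [v] a b).2 (Or.inl hab)
        have h5 := (hy.2 a b hab').2 v (Or.inl (by simp)) (by rintro rfl; exact hvL hab.mem.1)
          (by rintro rfl; exact hvL hab.mem.2)
        unfold det3 at *
        simp only [Pi.neg_apply] at h5 ⊢
        rw [agree a (Or.inr hab'.mem.1), agree b (Or.inr hab'.mem.2), hy3v]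
        exact h5)
      hv (hx r hrO) h.adj.1 h.adj.2 hadj
    have hset : ({s | s ∈ v :: O} : Set V) = insert v {s | s ∈ O} := by
      ext s
      simp only [List.mem_cons, Set.mem_ofPred_eq, Set.mem_insert_iff]
    refine ⟨y3, agree, ?_, stage3, Or.inr s1⟩
    rw [hset]
    exact s2
  | flip x O U L h ih =>
    intro y hy
    have h1 : ({s | s ∈ U.reverse ∨ s ∈ L.reverse} : Set V) = {s | s ∈ U ∨ s ∈ L} := by
      ext s
      simp only [List.mem_reverse, Set.mem_ofPred_eq]
    rw [h1] at hy
    have h2 := hy.flipx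
    rw [neg_neg, List.reverse_reverse, List.reverse_reverse] at h2
    obtain ⟨y', k1, k2, k3⟩ := ih y h2
    refine ⟨y', ?_, k2.flipx, k3.negx⟩
    intro s hs
    exact k1 s (by simpa using hs)

/-- Heights for the outer cycle. -/
theorem exists_hull [Finite V] {x : V → ℝ} {O : Set V} {U L : List V} {l r : V}
    (C : Chains x O U L l r) : ∃ y : V → ℝ, HullOn {s | s ∈ U ∨ s ∈ L} x y U L := by
  obtain ⟨A, rfl⟩ : ∃ A, U = l :: A := by
    have h := C.hUl
    cases U with
    | nil => simp at h
    | cons c A =>
      simp only [List.head?_cons, Option.some.injEq] at h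
      exact ⟨A, by rw [h]⟩
  obtain ⟨B, rfl⟩ : ∃ B, L = l :: B := by
    have h := C.hLl
    cases L with
    | nil => simp at h
    | cons c A =>
      simp only [List.head?_cons, Option.some.injEq] at h
      exact ⟨A, by rw [h]⟩
  have hlast : ∀ A : List V, (l :: A).getLast? = some r → A.getLast? = some r := by
    intro A hA
    cases A with
    | nil =>
      simp only [List.getLast?_singleton, Option.some.injEq] at hA
      exact absurd hA C.lr
    | cons c A => rwa [List.getLast?_cons_cons] at hA
  have hlO : l ∈ O := C.UO l (by simp)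
  have hrO : r ∈ O := C.UO r (List.mem_of_getLast? C.hUr)
  have hlr : x l < x r := C.rmax l hlO C.lr
  have hndU := nodup_of_mono C.monoU
  have hndL := nodup_of_mono C.monoL
  have base : ∀ y : V → ℝ, UpOK ({l, r} : Set V) x y ([] ++ [l, r]) := by
    intro y a b hab
    simp only [List.nil_append, consec_cons, consec_single, or_false] at hab
    obtain ⟨rfl, rfl⟩ := hab
    refine ⟨hlr, ?_⟩
    rintro s (rfl | rfl) h1 h2
    · exact absurd rfl h1
    · exact absurd rfl h2
  obtain ⟨y1, k1, k2, k3, -⟩ := fill (K := {l, r}) (F := ∅) [] [l, r] l r x 0 A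
    (hlast A C.hUr) (base 0) (base _) (by simp) (fun a b hab ↦ consec_of_pairwise C.monoU hab)
    (by
      intro w hw hwr
      refine ⟨?_, by simp⟩
      rintro (h | h)
      · subst h
        exact (List.nodup_cons.1 hndU).1 hw
      · exact hwr h)
    (List.nodup_cons.1 hndU).2 (by simp) (by simp)
    (by
      intro s hs
      simp only [List.nil_append, List.mem_singleton] at hs
      rw [hs]
      exact (List.nodup_cons.1 hndU).1)
  obtain ⟨y2, m1, m2, m3, -⟩ := fill (K := {l, r} ∪ {s | s ∈ A}) (F := ∅) [] ([] ++ l :: A) l r x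
    (-y1) B (hlast B C.hLr) k3 (by rw [neg_neg]; exact k2) (by simp)
    (fun a b hab ↦ consec_of_pairwise C.monoL hab)
    (by
      intro w hw hwr
      refine ⟨?_, by simp⟩
      rintro ((h | h) | h)
      · subst h
        exact (List.nodup_cons.1 hndL).1 hw
      · exact hwr h
      · have h' : w ∈ A := h
        rcases C.disj w (by simp [h']) (by simp [hw]) with h'' | h''
        · subst h''
          exact (List.nodup_cons.1 hndL).1 hw
        · exact hwr h'')
    (List.nodup_cons.1 hndL).2
    (by
      intro s hs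
      simp only [List.nil_append, List.mem_cons, List.not_mem_nil, or_false] at hs
      exact Or.inl hs)
    (by
      intro s hs
      simp only [List.nil_append, List.mem_cons] at hs
      rcases hs with hs | hs
      · exact Or.inl (Or.inl hs)
      · exact Or.inr hs)
    (by
      intro s hs
      simp only [List.nil_append, List.mem_singleton] at hs
      rw [hs]
      exact (List.nodup_cons.1 hndL).1)
  refine ⟨-y2, UpOK.mono m3 ?_, ?_⟩
  · rintro s (hs | hs)
    · rcases List.mem_cons.1 hs with h | h
      · exact Or.inl (Or.inl (Or.inl h))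
      · exact Or.inl (Or.inr h)
    · rcases List.mem_cons.1 hs with h | h
      · exact Or.inl (Or.inl (Or.inl h))
      · exact Or.inr h
  · rw [neg_neg]
    refine UpOK.mono m2 ?_
    rintro s (hs | hs)
    · rcases List.mem_cons.1 hs with h | h
      · exact Or.inl (Or.inl (Or.inl h))
      · exact Or.inl (Or.inr h)
    · rcases List.mem_cons.1 hs with h | h
      · exact Or.inl (Or.inl (Or.inl h))
      · exact Or.inr h

end Pool.Agent.MP7a5e6cSEQ
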