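import Mathlib

/-!
# Convex chains

Orientation determinants, consecutive elements of lists, and the insertion of new vertices
into convex chains.
-/

open Filter Topology

namespace Pool.Agent.MP7a5e6cSEQ

variable {V : Type*}

/-- `b` follows `a` immediately in the list. -/
def Consec : List V → V → V → Prop
  | [], _, _ => False
  | [_], _, _ => False
  | c :: d :: l, a, b => (a = c ∧ b = d) ∨ Consec (d :: l) a b

@[simp] theorem consec_nil (a b : V) : Consec ([] : List V) a b ↔ False := Iff.rfl
@[simp] theorem consec_single (c a b : V) : Consec [c] a b ↔ False := Iff.rfl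
@[simp] theorem consec_cons (c d : V) (l : List V) (a b : V) :
    Consec (c :: d :: l) a b ↔ (a = c ∧ b = d) ∨ Consec (d :: l) a b := Iff.rfl

theorem consec_append (A : List V) (p : V) (B : List V) (a b : V) :
    Consec (A ++ p :: B) a b ↔ Consec (A ++ [p]) a b ∨ Consec (p :: B) a b := by
  induction A with
  | nil => simp
  | cons c A ih =>
    cases A with
    | nil =>
      simp only [List.cons_append, List.nil_append, consec_cons, consec_single, or_false]
    | cons d A =>
      simp only [List.cons_append, consec_cons] at ih ⊢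
      rw [ih, or_assoc]

theorem Consec.mem {l : List V} {a b : V} (h : Consec l a b) : a ∈ l ∧ b ∈ l := by
  induction l with
  | nil => exact h.elim
  | cons c l ih =>
    cases l with
    | nil => exact h.elim
    | cons d l =>
      rcases h with ⟨rfl, rfl⟩ | h
      · simp
      · exact ⟨List.mem_cons_of_mem _ (ih h).1, List.mem_cons_of_mem _ (ih h).2⟩

theorem consec_reverse (l : List V) (a b : V) : Consec l.reverse a b ↔ Consec l b a := by
  induction l with
  | nil => simp
  | cons c l ih =>
    cases l with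
    | nil => simp
    | cons d l =>
      rw [List.reverse_cons] at ih
      rw [List.reverse_cons, List.reverse_cons, List.append_assoc, List.singleton_append,
        consec_append, ih, consec_cons, consec_cons, consec_single, or_false]
      tauto

/-- Every element but the last one has a successor. -/
theorem exists_consec (l : List V) (hl : l ≠ []) {w : V} (hw : w ∈ l) (hne : w ≠ l.getLast hl) :
    ∃ w', Consec l w w' := by
  induction l with
  | nil => exact absurd rfl hl
  | cons c l ih =>
    cases l with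
    | nil =>
      simp only [List.mem_singleton] at hw
      subst hw
      exact absurd rfl hne
    | cons d l =>
      rcases List.mem_cons.1 hw with rfl | hw
      · exact ⟨d, Or.inl ⟨rfl, rfl⟩⟩
      · rw [List.getLast_cons (by simp)] at hne
        obtain ⟨w', h⟩ := ih (by simp) hw hne
        exact ⟨w', Or.inr h⟩

/-- Every element but the first one has a predecessor. -/
theorem exists_consec_left (l : List V) (hl : l ≠ []) {w : V} (hw : w ∈ l)
    (hne : w ≠ l.head hl) : ∃ o, Consec l o w := by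
  have h1 : l.reverse ≠ [] := by simpa using hl
  obtain ⟨o, ho⟩ := exists_consec l.reverse h1 (w := w) (by simpa using hw) (by
    rwa [List.getLast_reverse])
  exact ⟨o, (consec_reverse l w o).1 ho⟩

/-- A sign change occurs along consecutive elements. -/
theorem exists_sign_change (D : V → ℝ) (l : List V) (hl : l ≠ []) (h0 : 0 < D (l.head hl))
    (h1 : D (l.getLast hl) ≤ 0) : ∃ a b, Consec l a b ∧ 0 < D a ∧ D b ≤ 0 := by
  induction l with
  | nil => exact absurd rfl hl
  | cons c l ih =>
    cases l with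
    | nil =>
      simp only [List.head_cons, List.getLast_singleton] at h0 h1
      linarith
    | cons d l =>
      by_cases hd : D d ≤ 0
      · exact ⟨c, d, Or.inl ⟨rfl, rfl⟩, h0, hd⟩
      · push Not at hd
        rw [List.getLast_cons (by simp)] at h1
        obtain ⟨a, b, hab, h2, h3⟩ := ih (by simp) hd h1
        exact ⟨a, b, Or.inr hab, h2, h3⟩

/-- Twice the signed area of the triangle `a b s`. -/
def det3 (x y : V → ℝ) (a b s : V) : ℝ := (x b - x a) * (y s - y a) - (y b - y a) * (x s - x a)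

theorem det3_neg (x y : V → ℝ) (a b s : V) : det3 x (-y) a b s = -det3 x y a b s := by
  unfold det3; simp only [Pi.neg_apply]; ring

theorem det3_flip (x y : V → ℝ) (a b s : V) : det3 (-x) y a b s = det3 x y b a s := by
  unfold det3; simp only [Pi.neg_apply]; ring

theorem det3_swap (x y : V → ℝ) (a b s : V) : det3 x y a s b = -det3 x y a b s := by
  unfold det3; ring

@[simp] theorem det3_self (x y : V → ℝ) (a b : V) : det3 x y a b a = 0 := by
  unfold det3; ring

@[simp] theorem det3_self' (x y : V → ℝ) (a b : V) : det3 x y a b b = 0 := by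
  unfold det3; ring

/-- `U` is an upper boundary chain of the points in `K`: it runs from left to right, and all
points are strictly below the lines through consecutive vertices. -/
def UpOK (K : Set V) (x y : V → ℝ) (U : List V) : Prop :=
  ∀ a b, Consec U a b → x a < x b ∧ ∀ s ∈ K, s ≠ a → s ≠ b → det3 x y a b s < 0

theorem UpOK.le {K : Set V} {x y : V → ℝ} {U : List V} (h : UpOK K x y U) {a b s : V}
    (hab : Consec U a b) (hs : s ∈ K) : det3 x y a b s ≤ 0 := by
  rcases eq_or_ne s a with rfl | h1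
  · simp
  · rcases eq_or_ne s b with rfl | h2
    · simp
    · exact ((h a b hab).2 s hs h1 h2).le

/-- Upper and lower chain. -/
def HullOn (K : Set V) (x y : V → ℝ) (U L : List V) : Prop := UpOK K x y U ∧ UpOK K x (-y) L

theorem HullOn.flipy {K : Set V} {x y : V → ℝ} {U L : List V} (h : HullOn K x y U L) :
    HullOn K x (-y) L U := ⟨h.2, by rw [neg_neg]; exact h.1⟩

theorem UpOK.flipx {K : Set V} {x y : V → ℝ} {U : List V} (h : UpOK K x y U) :
    UpOK K (-x) y U.reverse := by
  intro a b hab
  rw [consec_reverse] at hab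
  obtain ⟨h1, h2⟩ := h b a hab
  refine ⟨neg_lt_neg h1, fun s hs ha hb ↦ ?_⟩
  rw [det3_flip]
  exact h2 s hs hb ha

theorem HullOn.flipx {K : Set V} {x y : V → ℝ} {U L : List V} (h : HullOn K x y U L) :
    HullOn K (-x) y U.reverse L.reverse := ⟨h.1.flipx, h.2.flipx⟩

theorem UpOK.mono {K K' : Set V} {x y : V → ℝ} {U : List V} (h : UpOK K x y U) (hK : K' ⊆ K) :
    UpOK K' x y U := fun a b hab ↦ ⟨(h a b hab).1, fun s hs ↦ (h a b hab).2 s (hK hs)⟩

theorem UpOK.congr {K : Set V} {x y y' : V → ℝ} {U : List V} (h : UpOK K x y U)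
    (hU : ∀ w ∈ U, w ∈ K) (hy : ∀ w ∈ K, y' w = y w) : UpOK K x y' U := by
  intro a b hab
  refine ⟨(h a b hab).1, fun s hs ha hb ↦ ?_⟩
  have := (h a b hab).2 s hs ha hb
  unfold det3 at *
  rw [hy s hs, hy a (hU a hab.mem.1), hy b (hU b hab.mem.2)]
  exact this

theorem ev_neg {A B : ℝ} (h : A < 0 ∨ (A ≤ 0 ∧ B < 0)) : ∀ᶠ η in 𝓝[>] (0 : ℝ), A + B * η < 0 := by
  rcases h with h | ⟨h, hB⟩
  · have h1 : Tendsto (fun η : ℝ ↦ A + B * η) (𝓝[>] 0) (𝓝 (A + B * 0)) := by
      refine Tendsto.mono_left ?_ nhdsWithin_le_nhds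
      exact (continuous_const.add (continuous_const.mul continuous_id)).tendsto 0
    rw [mul_zero, add_zero] at h1
    exact h1.eventually_lt_const h
  · filter_upwards [self_mem_nhdsWithin] with η hη
    have := mul_neg_of_neg_of_pos hB hη
    linarith

/-- Slopes: a point seen from `p` on the right side. -/
theorem slope_right {x y : V → ℝ} {p p' s v : V} (h1 : x p < x p') (h2 : x p < x s)
    (h3 : x p < x v) (h4 : det3 x y p p' s ≤ 0) (h5 : 0 < det3 x y p p' v) :
    det3 x y p v s < 0 := by
  have key : (x p' - x p) * det3 x y p v s =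
      (x v - x p) * det3 x y p p' s - (x s - x p) * det3 x y p p' v := by
    unfold det3; ring
  have h6 : (x v - x p) * det3 x y p p' s ≤ 0 :=
    mul_nonpos_of_nonneg_of_nonpos (by linarith) h4
  have h7 : 0 < (x s - x p) * det3 x y p p' v := mul_pos (by linarith) h5
  by_contra hc
  push Not at hc
  have := mul_nonneg (sub_nonneg.2 h1.le) hc
  linarith

/-- Slopes: a point seen from `p` on the left side. -/
theorem slope_left {x y : V → ℝ} {o p s r : V} (h1 : x o < x p) (h2 : x s < x p)
    (h3 : x p < x r) (h4 : det3 x y o p s ≤ 0) (h5 : det3 x y o p r < 0) :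
    det3 x y p r s < 0 := by
  have key : (x p - x o) * det3 x y p r s =
      (x p - x s) * det3 x y o p r + (x r - x p) * det3 x y o p s := by
    unfold det3; ring
  have h6 : (x r - x p) * det3 x y o p s ≤ 0 :=
    mul_nonpos_of_nonneg_of_nonpos (by linarith) h4
  have h7 : (x p - x s) * det3 x y o p r < 0 := mul_neg_of_pos_of_neg (by linarith) h5
  by_contra hc
  push Not at hc
  have := mul_nonneg (sub_nonneg.2 h1.le) hc
  linarith

/-- Slopes: a point between `p` and `r`, which are above a line through it. -/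
theorem slope_mid {x y : V → ℝ} {p r s s' : V} (h1 : x p < x s) (h2 : x s < x r)
    (h3 : x s < x s') (h4 : 0 < det3 x y s s' p) (h5 : 0 ≤ det3 x y s s' r) :
    det3 x y p r s < 0 := by
  have key : (x s' - x s) * det3 x y p r s =
      -(x s - x p) * det3 x y s s' r - (x r - x s) * det3 x y s s' p := by
    unfold det3; ring
  have h6 : -(x s - x p) * det3 x y s s' r ≤ 0 :=
    mul_nonpos_of_nonpos_of_nonneg (by linarith) h5
  have h7 : 0 < (x r - x s) * det3 x y s s' p := mul_pos (by linarith) h4
  by_contra hc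
  push Not at hc
  have := mul_nonneg (sub_nonneg.2 h3.le) hc
  linarith

section Insert

variable [Finite V]

/-- Insertion of one new vertex `w` between the consecutive vertices `p`, `c` of the upper
chain. The points of `F` stay above the new lines. -/
theorem insert_one {x y : V → ℝ} {K F : Set V} {U₁ C L : List V} {p w c : V}
    (hU : UpOK K x y (U₁ ++ p :: c :: C)) (hL : UpOK K x (-y) L)
    (hF : ∀ v ∈ F, ∀ a b, Consec (p :: c :: C) a b → 0 < det3 x y a b v)
    (hpw : x p < x w) (hwc : x w < x c) (hwK : w ∉ K) (hwF : w ∉ F)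
    (hUK : ∀ s ∈ U₁ ++ p :: c :: C, s ∈ K) (hLK : ∀ s ∈ L, s ∈ K)
    (hcU : ∀ a b, Consec (U₁ ++ [p]) a b → a ≠ c ∧ b ≠ c)
    (hpC : ∀ a b, Consec (c :: C) a b → a ≠ p ∧ b ≠ p) :
    ∃ y' : V → ℝ, (∀ s, s ≠ w → y' s = y s) ∧
      UpOK (insert w K) x y' (U₁ ++ p :: w :: c :: C) ∧ UpOK (insert w K) x (-y') L ∧
      ∀ v ∈ F, ∀ a b, Consec (p :: w :: c :: C) a b → 0 < det3 x y' a b v := by
  have hpK : p ∈ K := hUK p (by simp)
  have hcK : c ∈ K := hUK c (by simp)
  have hpc : x p < x c := hpw.trans hwc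
  have hpc' : x c - x p ≠ 0 := by linarith
  set θ : ℝ := (x w - x p) / (x c - x p) with hθ
  have hθ0 : 0 < θ := div_pos (by linarith) (by linarith)
  have hθ1 : θ < 1 := by rw [hθ, div_lt_one (by linarith)]; linarith
  have hxw : x w = x p + θ * (x c - x p) := by rw [hθ, div_mul_cancel₀ _ hpc']; ring
  have hUapp : ∀ a b, Consec (U₁ ++ [p]) a b → Consec (U₁ ++ p :: c :: C) a b :=
    fun a b hab ↦ (consec_append _ _ _ _ _).2 (Or.inl hab)
  have hCapp : ∀ a b, Consec (c :: C) a b → Consec (U₁ ++ p :: c :: C) a b :=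
    fun a b hab ↦ (consec_append _ _ _ _ _).2 (Or.inr (Or.inr hab))
  have hpcC : Consec (U₁ ++ p :: c :: C) p c :=
    (consec_append _ _ _ _ _).2 (Or.inr (Or.inl ⟨rfl, rfl⟩))
  -- the conditions on the parameter
  have E1 : ∀ᶠ η in 𝓝[>] (0 : ℝ), ∀ a b, Consec (U₁ ++ [p]) a b →
      ((1 - θ) * det3 x y a b p + θ * det3 x y a b c) + (x b - x a) * η < 0 := by
    refine eventually_all.2 fun a ↦ eventually_all.2 fun b ↦ ?_
    rw [eventually_imp_distrib_left]
    intro hab
    refine ev_neg (Or.inl ?_)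
    have h1 := hU.le (hUapp a b hab) hpK
    have h2 := (hU a b (hUapp a b hab)).2 c hcK (hcU a b hab).1.symm (hcU a b hab).2.symm
    nlinarith
  have E2 : ∀ᶠ η in 𝓝[>] (0 : ℝ), ∀ a b, Consec (c :: C) a b →
      ((1 - θ) * det3 x y a b p + θ * det3 x y a b c) + (x b - x a) * η < 0 := by
    refine eventually_all.2 fun a ↦ eventually_all.2 fun b ↦ ?_
    rw [eventually_imp_distrib_left]
    intro hab
    refine ev_neg (Or.inl ?_)
    have h1 := hU.le (hCapp a b hab) hcK
    have h2 := (hU a b (hCapp a b hab)).2 p hpK (hpC a b hab).1.symm (hpC a b hab).2.symm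
    nlinarith
  have E4 : ∀ᶠ η in 𝓝[>] (0 : ℝ), ∀ s, s ∈ K → s ≠ p →
      θ * det3 x y p c s + (-(x s - x p)) * η < 0 := by
    refine eventually_all.2 fun s ↦ ?_
    rw [eventually_imp_distrib_left]
    intro hs
    rw [eventually_imp_distrib_left]
    intro hsp
    refine ev_neg ?_
    rcases eq_or_ne s c with rfl | hsc
    · right
      rw [det3_self']
      constructor
      · simp
      · linarith
    · left
      exact mul_neg_of_pos_of_neg hθ0 ((hU p c hpcC).2 s hs hsp hsc)
  have E5 : ∀ᶠ η in 𝓝[>] (0 : ℝ), ∀ s, s ∈ K → s ≠ c →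
      (1 - θ) * det3 x y p c s + (x s - x c) * η < 0 := by
    refine eventually_all.2 fun s ↦ ?_
    rw [eventually_imp_distrib_left]
    intro hs
    rw [eventually_imp_distrib_left]
    intro hsc
    refine ev_neg ?_
    rcases eq_or_ne s p with rfl | hsp
    · right
      rw [det3_self]
      constructor
      · simp
      · linarith
    · left
      exact mul_neg_of_pos_of_neg (by linarith) ((hU p c hpcC).2 s hs hsp hsc)
  have E6 : ∀ᶠ η in 𝓝[>] (0 : ℝ), ∀ v, v ∈ F →
      -(θ * det3 x y p c v) + (x v - x p) * η < 0 := by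
    refine eventually_all.2 fun v ↦ ?_
    rw [eventually_imp_distrib_left]
    intro hv
    refine ev_neg (Or.inl ?_)
    have := mul_pos hθ0 (hF v hv p c (Or.inl ⟨rfl, rfl⟩))
    linarith
  have E7 : ∀ᶠ η in 𝓝[>] (0 : ℝ), ∀ v, v ∈ F →
      -((1 - θ) * det3 x y p c v) + (-(x v - x c)) * η < 0 := by
    refine eventually_all.2 fun v ↦ ?_
    rw [eventually_imp_distrib_left]
    intro hv
    refine ev_neg (Or.inl ?_)
    have := mul_pos (sub_pos.2 hθ1) (hF v hv p c (Or.inl ⟨rfl, rfl⟩))
    linarith
  obtain ⟨η, ⟨⟨⟨⟨⟨⟨e1, e2⟩, e4⟩, e5⟩, e6⟩, e7⟩, hη⟩⟩ :=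
    (((((((E1.and E2).and E4).and E5).and E6).and E7).and
      (self_mem_nhdsWithin : Set.Ioi (0 : ℝ) ∈ 𝓝[>] 0)).exists)
  have hη0 : (0 : ℝ) < η := hη
  classical
  set Y : ℝ := y p + θ * (y c - y p) + η with hY
  let y' : V → ℝ := Function.update y w Y
  have hy' : ∀ s, s ≠ w → y' s = y s := fun s hs ↦ Function.update_of_ne hs _ _
  have hyw : y' w = Y := Function.update_self _ _ _
  have hKw : ∀ s ∈ K, s ≠ w := fun s hs h ↦ hwK (h ▸ hs)
  have hFw : ∀ s ∈ F, s ≠ w := fun s hs h ↦ hwF (h ▸ hs)
  have d0 : ∀ a b s, a ≠ w → b ≠ w → s ≠ w → det3 x y' a b s = det3 x y a b s := by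
    intro a b s ha hb hs
    unfold det3
    rw [hy' a ha, hy' b hb, hy' s hs]
  have d1 : ∀ a b, a ≠ w → b ≠ w → det3 x y' a b w =
      ((1 - θ) * det3 x y a b p + θ * det3 x y a b c) + (x b - x a) * η := by
    intro a b ha hb
    unfold det3
    rw [hy' a ha, hy' b hb, hyw, hY, hxw]
    ring
  have d2 : ∀ s, s ≠ w → det3 x y' p w s = θ * det3 x y p c s + (-(x s - x p)) * η := by
    intro s hs
    unfold det3
    rw [hy' p (hKw p hpK), hy' s hs, hyw, hY, hxw]
    ring
  have d3 : ∀ s, s ≠ w → det3 x y' w c s = (1 - θ) * det3 x y p c s + (x s - x c) * η := by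
    intro s hs
    unfold det3
    rw [hy' c (hKw c hcK), hy' s hs, hyw, hY, hxw]
    ring
  refine ⟨y', hy', ?_, ?_, ?_⟩
  · intro a b hab
    rcases (consec_append _ _ _ _ _).1 hab with hab' | (⟨rfl, rfl⟩ | ⟨rfl, rfl⟩ | hab')
    · have haK := hUK a (hUapp a b hab').mem.1
      have hbK := hUK b (hUapp a b hab').mem.2
      refine ⟨(hU a b (hUapp a b hab')).1, ?_⟩
      rintro s (rfl | hs) hsa hsb
      · rw [d1 a b (hKw a haK) (hKw b hbK)]
        exact e1 a b hab'
      · rw [d0 a b s (hKw a haK) (hKw b hbK) (hKw s hs)]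
        exact (hU a b (hUapp a b hab')).2 s hs hsa hsb
    · refine ⟨hpw, ?_⟩
      rintro s (rfl | hs) hsa hsb
      · exact absurd rfl hsb
      · rw [d2 s (hKw s hs)]
        exact e4 s hs hsa
    · refine ⟨hwc, ?_⟩
      rintro s (rfl | hs) hsa hsb
      · exact absurd rfl hsa
      · rw [d3 s (hKw s hs)]
        exact e5 s hs hsb
    · have haK := hUK a (hCapp a b hab').mem.1
      have hbK := hUK b (hCapp a b hab').mem.2
      refine ⟨(hU a b (hCapp a b hab')).1, ?_⟩
      rintro s (rfl | hs) hsa hsb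
      · rw [d1 a b (hKw a haK) (hKw b hbK)]
        exact e2 a b hab'
      · rw [d0 a b s (hKw a haK) (hKw b hbK) (hKw s hs)]
        exact (hU a b (hCapp a b hab')).2 s hs hsa hsb
  · intro a b hab
    have haK := hLK a hab.mem.1
    have hbK := hLK b hab.mem.2
    refine ⟨(hL a b hab).1, ?_⟩
    rintro s (rfl | hs) hsa hsb
    · rw [det3_neg, d1 a b (hKw a haK) (hKw b hbK)]
      have h1 := hL.le hab hpK
      have h2 := hL.le hab hcK
      rw [det3_neg] at h1 h2
      have h3 := mul_pos (sub_pos.2 (hL a b hab).1) hη0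
      have h4 : 0 ≤ (1 - θ) * det3 x y a b p := mul_nonneg (by linarith) (by linarith)
      have h5 : 0 ≤ θ * det3 x y a b c := mul_nonneg hθ0.le (by linarith)
      linarith
    · rw [det3_neg, d0 a b s (hKw a haK) (hKw b hbK) (hKw s hs), ← det3_neg]
      exact (hL a b hab).2 s hs hsa hsb
  · intro v hv a b hab
    rcases hab with ⟨rfl, rfl⟩ | ⟨rfl, rfl⟩ | hab'
    · rw [d2 v (hFw v hv)]
      have := e6 v hv
      linarith
    · rw [d3 v (hFw v hv)]
      have := e7 v hv
      linarith
    · have haK := hUK a (hCapp a b hab').mem.1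
      have hbK := hUK b (hCapp a b hab').mem.2
      rw [d0 a b v (hKw a haK) (hKw b hbK) (hFw v hv)]
      exact hF v hv a b (Or.inr hab')

end Insert

end Pool.Agent.MP7a5e6cSEQ
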