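import Pool.Agent.Lib.MP_7a5e6c_co_SEQ.Core
import Pool.Agent.Lib.MP_7a5e6c_co_SEQ.Grow

/-!
# The drawing
-/

open scoped Classical

namespace Pool.Agent.MP7a5e6cSEQ

variable {V : Type*}

/-- The points of the drawing. -/
noncomputable def pts (x y : V → ℝ) (ε : ℝ) (s : V) : Pt := !₂[x s, ε * y s]

@[simp] theorem pts_zero (x y : V → ℝ) (ε : ℝ) (s : V) : pts x y ε s 0 = x s := rfl
@[simp] theorem pts_one (x y : V → ℝ) (ε : ℝ) (s : V) : pts x y ε s 1 = ε * y s := rfl

theorem dist_pts_ge (x y : V → ℝ) (ε : ℝ) (a b : V) :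
    |x a - x b| ≤ dist (pts x y ε a) (pts x y ε b) := by
  rw [EuclideanSpace.dist_eq, Fin.sum_univ_two]
  refine Real.le_sqrt_of_sq_le ?_
  simp only [pts_zero, pts_one, Real.dist_eq]
  nlinarith [sq_nonneg (|ε * y a - ε * y b|)]

theorem dist_pts_le (x y : V → ℝ) {ε : ℝ} (hε : 0 ≤ ε) (a b : V) :
    dist (pts x y ε a) (pts x y ε b) ≤ |x a - x b| + ε * |y a - y b| := by
  rw [EuclideanSpace.dist_eq, Fin.sum_univ_two]
  have h1 : |ε * y a - ε * y b| = ε * |y a - y b| := by
    rw [← mul_sub, abs_mul, abs_of_nonneg hε]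
  simp only [pts_zero, pts_one, Real.dist_eq, h1]
  have h2 : 0 ≤ |x a - x b| := abs_nonneg _
  have h3 : 0 ≤ ε * |y a - y b| := mul_nonneg hε (abs_nonneg _)
  refine Real.sqrt_le_iff.2 ⟨by linarith, ?_⟩
  nlinarith [mul_nonneg h2 h3]

/-- A linear functional of the plane. -/
noncomputable def lin (α β : ℝ) : Pt →ₗ[ℝ] ℝ where
  toFun P := α * P 0 + β * P 1
  map_add' P Q := by
    simp only [PiLp.add_apply]; ring
  map_smul' c P := by
    simp only [PiLp.smul_apply, smul_eq_mul, RingHom.id_apply]; ring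

theorem lin_pts (x y : V → ℝ) {ε : ℝ} (hε : ε ≠ 0) (α β : ℝ) (s : V) :
    lin α (β / ε) (pts x y ε s) = α * x s + β * y s := by
  show α * pts x y ε s 0 + β / ε * pts x y ε s 1 = _
  rw [pts_zero, pts_one]
  field_simp

theorem StageXY.stage {G : SimpleGraph V} {x y : V → ℝ} {O : Set V} {v : V}
    (h : StageXY G x y O v) {ε : ℝ} (hε : 0 < ε) : Stage (pts x y ε) O v G := by
  refine ⟨h.nv, h.ex, fun w hw hwv ↦ ?_, fun a ha hav ↦ ?_⟩
  · obtain ⟨α, β, h1, h2⟩ := h.vis w hw hwv
    refine ⟨lin α (β / ε), fun s hs hsw ↦ ?_, ?_⟩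
    · rw [lin_pts x y hε.ne', lin_pts x y hε.ne']
      exact h1 s hs hsw
    · rw [lin_pts x y hε.ne', lin_pts x y hε.ne']
      exact h2
  · obtain ⟨c, hc, d, hd, hcd, t, u, h1, h2, h3, h4, h5, h6⟩ := h.blk a ha hav
    have hne : pts x y ε a ≠ pts x y ε v := by
      intro he
      obtain ⟨w, hw, hwv⟩ := h.ex
      obtain ⟨α, β, g1, g2⟩ := h.vis w hw hwv
      have e1 : x a = x v := by
        have := congrArg (fun P : Pt ↦ P 0) he
        simpa using this
      have e2 : y a = y v := by
        have := congrArg (fun P : Pt ↦ P 1) he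
        simpa [hε.ne'] using this
      by_cases haw : a = w
      · subst haw
        rw [e1, e2] at g2
        exact lt_irrefl _ g2
      · have := g1 a ha haw
        rw [e1, e2] at this
        linarith
    have hsub : pts x y ε v - pts x y ε a ≠ 0 := sub_ne_zero.2 hne.symm
    refine ⟨c, hc, d, hd, hcd, pts x y ε a + t • (pts x y ε v - pts x y ε a), ?_, ?_, ?_, ?_⟩
    · exact ⟨1 - t, t, by linarith, h1.le, by ring, by module⟩
    · refine ⟨1 - u, u, by linarith, h3, by ring, ?_⟩
      ext i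
      fin_cases i
      · show (1 - u) * x c + u * x d = x a + t * (x v - x a)
        rw [h5]; ring
      · show (1 - u) * (ε * y c) + u * (ε * y d) = ε * y a + t * (ε * y v - ε * y a)
        have : ε * y a + t * (ε * y v - ε * y a) = ε * (y a + t * (y v - y a)) := by ring
        rw [this, h6]; ring
    · intro he
      have h7 : t • (pts x y ε v - pts x y ε a) = 0 := by
        simpa using he
      rcases smul_eq_zero.1 h7 with h8 | h8
      · exact h1.ne' h8
      · exact hsub h8
    · intro he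
      have h7 : (1 - t) • (pts x y ε v - pts x y ε a) = 0 := by
        rw [sub_smul, one_smul, sub_eq_zero]
        rw [← sub_eq_iff_eq_add'.2 he.symm]
      rcases smul_eq_zero.1 h7 with h8 | h8
      · linarith
      · exact hsub h8

theorem StagesXY.nodup {G : SimpleGraph V} {x y : V → ℝ} {O : List V} (h : StagesXY G x y O) :
    O.Nodup := by
  induction O with
  | nil => exact List.nodup_nil
  | cons v O ih =>
    obtain ⟨h1, h2⟩ := h
    rcases h2 with rfl | h2
    · simp
    · exact List.nodup_cons.2 ⟨h2.nv, ih h1⟩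

theorem stages_min [Fintype V] {G : SimpleGraph V} {x y : V → ℝ} {ε : ℝ} (hε : 0 < ε)
    (hB : ε * ∑ a : V, ∑ b : V, |y a - y b| ≤ 1) :
    ∀ O : List V, StagesXY G x y O → FarX x O →
      TriOn (pts x y ε) {s | s ∈ O} G ∧
      ∀ E : SimpleGraph V, TriOn (pts x y ε) {s | s ∈ O} E →
        (∀ a ∈ O.toFinset, ∀ b ∈ O.toFinset, (E.Adj a b ↔ G.Adj a b)) ∨
          wt (pts x y ε) O.toFinset G < wt (pts x y ε) O.toFinset E := by
  intro O
  induction O with
  | nil =>
    intro _ _
    refine ⟨⟨fun a ha ↦ ?_, fun a ha ↦ ?_, fun a ha ↦ ?_⟩, fun E _ ↦ Or.inl ?_⟩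
    · simp at ha
    · simp at ha
    · simp at ha
    · simp
  | cons v O ih =>
    intro hS hF
    have hnd := hS.nodup
    obtain ⟨hS1, hS2⟩ := hS
    obtain ⟨hF1, hF2⟩ := hF
    obtain ⟨ih1, ih2⟩ := ih hS1 hF1
    rcases hS2 with rfl | hS2
    · refine ⟨⟨fun a ha b hb hab ↦ ?_, fun a ha b hb c hc d hd hab ↦ ?_,
        fun a ha b hb hne ↦ ?_⟩, fun E _ ↦ Or.inl ?_⟩
      · simp only [List.mem_cons, List.not_mem_nil, or_false, Set.mem_ofPred_eq] at ha hb
        rw [ha, hb] at hab
        exact absurd hab (G.loopless.irrefl _)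
      · simp only [List.mem_cons, List.not_mem_nil, or_false, Set.mem_ofPred_eq] at ha hb
        rw [ha, hb] at hab
        exact absurd hab (G.loopless.irrefl _)
      · simp only [List.mem_cons, List.not_mem_nil, or_false, Set.mem_ofPred_eq] at ha hb
        exact absurd (ha.trans hb.symm) hne
      · intro a ha b hb
        simp only [List.toFinset_cons, List.toFinset_nil, insert_empty_eq,
          Finset.mem_singleton] at ha hb
        rw [ha, hb]
        exact ⟨fun h2 ↦ absurd h2 (E.loopless.irrefl _),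
          fun h2 ↦ absurd h2 (G.loopless.irrefl _)⟩
    · have hst : Stage (pts x y ε) ({s | s ∈ O} : Set V) v G := hS2.stage hε
      have hset : ({s | s ∈ v :: O} : Set V) = insert v {s | s ∈ O} := by
        ext s
        simp only [List.mem_cons, Set.mem_ofPred_eq, Set.mem_insert_iff]
      have hco : ((O.toFinset : Finset V) : Set V) = {s | s ∈ O} := by
        ext s
        simp
      rw [hset]
      refine ⟨hst.tri ih1, fun E hE ↦ ?_⟩
      rw [List.toFinset_cons]
      refine Stage.min (S := O.toFinset) (by rw [hco]; exact hst) ?_ (by rw [hco]; exact ih2) E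
        (by rw [hco]; exact hE)
      intro a ha
      have haO : a ∈ O := List.mem_toFinset.1 ha
      have hndO : O.Nodup := (List.nodup_cons.1 hnd).2
      have hfar := hF2 a haO
      have e1 : (O.map fun a ↦ (O.map fun b ↦ |x a - x b|).sum).sum =
          ∑ a ∈ O.toFinset, ∑ b ∈ O.toFinset, |x a - x b| := by
        rw [List.sum_toFinset _ hndO]
        congr 1
        refine List.map_congr_left fun c _ ↦ ?_
        rw [List.sum_toFinset _ hndO]
      rw [e1] at hfar
      have e2 : ∑ c ∈ O.toFinset, ∑ d ∈ O.toFinset, dist (pts x y ε c) (pts x y ε d) ≤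
          ∑ c ∈ O.toFinset, ∑ d ∈ O.toFinset, (|x c - x d| + ε * |y c - y d|) :=
        Finset.sum_le_sum fun c _ ↦ Finset.sum_le_sum fun d _ ↦ dist_pts_le x y hε.le c d
      have e3 : ∑ c ∈ O.toFinset, ∑ d ∈ O.toFinset, (|x c - x d| + ε * |y c - y d|) =
          ∑ c ∈ O.toFinset, ∑ d ∈ O.toFinset, |x c - x d| +
            ε * ∑ c ∈ O.toFinset, ∑ d ∈ O.toFinset, |y c - y d| := by
        rw [Finset.mul_sum, ← Finset.sum_add_distrib]
        refine Finset.sum_congr rfl fun c _ ↦ ?_
        rw [Finset.mul_sum, ← Finset.sum_add_distrib]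
      have e4 : ∑ c ∈ O.toFinset, ∑ d ∈ O.toFinset, |y c - y d| ≤
          ∑ a : V, ∑ b : V, |y a - y b| := by
        refine (Finset.sum_le_sum fun c _ ↦ ?_).trans
          (Finset.sum_le_univ_sum_of_nonneg fun c ↦ Finset.sum_nonneg fun d _ ↦ abs_nonneg _)
        exact Finset.sum_le_univ_sum_of_nonneg fun d ↦ abs_nonneg _
      have e5 := mul_le_mul_of_nonneg_left e4 hε.le
      have e6 := dist_pts_ge x y ε a v
      linarith

/-- The graph `G` is the unique minimum weight triangulation of some points. -/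
theorem drawable {n : ℕ} (G : SimpleGraph (Fin n)) (O U L : List (Fin n)) (h : Grows G O U L)
    (hO : ∀ v, v ∈ O) : ∃ f : Fin n → EuclideanSpace ℝ (Fin 2), Function.Injective f ∧
      IsTriangulation f G ∧
      ∀ E : SimpleGraph (Fin n), IsTriangulation f E → E ≠ G → weight f G < weight f E := by
  obtain ⟨x, hx, hfar⟩ := h.exists_x
  obtain ⟨l, r, C⟩ := hx.chains
  obtain ⟨y0, hy0⟩ := exists_hull C
  obtain ⟨y, -, -, hst⟩ := hx.main y0 hy0
  set B : ℝ := ∑ a : Fin n, ∑ b : Fin n, |y a - y b| with hB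
  have hB0 : 0 ≤ B := Finset.sum_nonneg fun a _ ↦ Finset.sum_nonneg fun b _ ↦ abs_nonneg _
  have hε : 0 < (1 + B)⁻¹ := by positivity
  have hεB : (1 + B)⁻¹ * B ≤ 1 := by
    rw [inv_mul_le_iff₀ (by positivity)]
    linarith
  obtain ⟨k1, k2⟩ := stages_min hε hεB O hst hfar
  have hset : ({s | s ∈ O} : Set (Fin n)) = Set.univ := Set.eq_univ_of_forall hO
  have hfin : ∀ inst : DecidableEq (Fin n), @List.toFinset _ inst O = Finset.univ := by
    intro inst
    ext s
    simp [hO s]
  have htri : ∀ (f : Fin n → Pt) (E : SimpleGraph (Fin n)),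
      TriOn f Set.univ E ↔ IsTriangulation f E := by
    intro f E
    simp only [TriOn, IsTriangulation, NC, Set.mem_univ, true_implies]
  refine ⟨pts x y (1 + B)⁻¹, ?_, ?_, ?_⟩
  · intro a b hab
    have : x a = x b := by
      have := congrArg (fun P : Pt ↦ P 0) hab
      simpa using this
    exact C.inj a (hO a) b (hO b) this
  · rw [← htri, ← hset]
    exact k1
  · intro E hE hne
    rw [← htri, ← hset] at hE
    rcases k2 E hE with h1 | h1
    · refine absurd ?_ hne
      ext a b
      rw [hfin] at h1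
      exact h1 a (Finset.mem_univ _) b (Finset.mem_univ _)
    · rw [hfin] at h1
      exact h1

end Pool.Agent.MP7a5e6cSEQ
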