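import Pool.Agent.Lib.MP_7a5e6c_co_SEQ.Hull

/-!
# Removing the last vertex: heights for the old boundary chains
-/

open Filter Topology

namespace Pool.Agent.MP7a5e6cSEQ

variable {V : Type*}

theorem exists_consec' {l : List V} {r w : V} (hr : l.getLast? = some r) (hw : w ∈ l)
    (hne : w ≠ r) : ∃ w', Consec l w w' := by
  have hl : l ≠ [] := by rintro rfl; simp at hr
  refine exists_consec l hl hw ?_
  rw [List.getLast?_eq_some_getLast hl] at hr
  rw [Option.some_inj.1 hr]
  exact hne

theorem exists_consec_left' {A : List V} {p : V} (hA : A ≠ []) (hn : (A ++ [p]).Nodup) :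
    ∃ o, Consec (A ++ [p]) o p := by
  have h1 : A ++ [p] ≠ [] := by simp
  refine exists_consec_left (A ++ [p]) h1 (by simp) ?_
  obtain ⟨c, A', rfl⟩ := List.exists_cons_of_ne_nil hA
  simp only [List.cons_append, List.head_cons]
  rintro rfl
  simp at hn

section Fill

variable [Finite V]

/-- Fill in the new vertices `C` (up to the last one, `r`) between `p` and `r`. -/
theorem fill {K F : Set V} (U₁ L : List V) (p r : V) (x y : V → ℝ) :
    ∀ C : List V, C.getLast? = some r →
    UpOK K x y (U₁ ++ [p, r]) → UpOK K x (-y) L → (∀ v ∈ F, 0 < det3 x y p r v) →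
    (∀ a b, Consec (p :: C) a b → x a < x b) →
    (∀ w ∈ C, w ≠ r → w ∉ K ∧ w ∉ F) → C.Nodup →
    (∀ s ∈ U₁ ++ [p, r], s ∈ K) → (∀ s ∈ L, s ∈ K) → (∀ s ∈ U₁ ++ [p], s ∉ C) →
    ∃ y' : V → ℝ, (∀ s, (s ∉ C ∨ s = r) → y' s = y s) ∧
      UpOK (K ∪ {s | s ∈ C}) x y' (U₁ ++ p :: C) ∧ UpOK (K ∪ {s | s ∈ C}) x (-y') L ∧
      ∀ v ∈ F, ∀ a b, Consec (p :: C) a b → 0 < det3 x y' a b v := by
  intro C
  induction C with
  | nil => intro h; simp at h
  | cons w C ih =>
    intro hr hU hL hF hmono hnew hnd hUK hLK hdis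
    cases C with
    | nil =>
      simp only [List.getLast?_singleton, Option.some.injEq] at hr
      subst hr
      have hwK : w ∈ K := hUK w (by simp)
      have hKe : K ∪ {s | s ∈ [w]} = K := by
        ext s
        simp only [List.mem_singleton, Set.mem_union, Set.mem_ofPred_eq]
        constructor
        · rintro (h | rfl)
          · exact h
          · exact hwK
        · exact Or.inl
      rw [hKe]
      refine ⟨y, fun _ _ ↦ rfl, hU, hL, ?_⟩
      intro v hv a b hab
      simp only [consec_cons, consec_single, or_false] at hab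
      obtain ⟨rfl, rfl⟩ := hab
      exact hF v hv
    | cons c C =>
      have hr' : (c :: C).getLast? = some r := by
        rw [← hr, List.getLast?_cons_cons]
      have hrC : r ∈ c :: C := List.mem_of_getLast? hr'
      have hwC : w ∉ c :: C := (List.nodup_cons.1 hnd).1
      have hwr : w ≠ r := by rintro rfl; exact hwC hrC
      have hpw : x p < x w := hmono p w (Or.inl ⟨rfl, rfl⟩)
      have hwc : x w < x c := hmono w c (Or.inr (Or.inl ⟨rfl, rfl⟩))
      obtain ⟨y1, hy1, hU1, hL1, hF1⟩ := ih hr' hU hL hF (by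
        intro a b hab
        rcases hab with ⟨rfl, rfl⟩ | hab
        · exact hpw.trans hwc
        · exact hmono a b (Or.inr (Or.inr hab)))
        (fun s hs hsr ↦ hnew s (List.mem_cons_of_mem _ hs) hsr) (List.nodup_cons.1 hnd).2
        hUK hLK (fun s hs h ↦ hdis s hs (List.mem_cons_of_mem _ h))
      obtain ⟨y2, hy2, hU2, hL2, hF2⟩ := insert_one (w := w) hU1 hL1 hF1 hpw hwc
        (by
          rintro (h | h)
          · exact (hnew w (by simp) hwr).1 h
          · exact hwC h)
        (hnew w (by simp) hwr).2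
        (by
          intro s hs
          rcases List.mem_append.1 hs with h | h
          · exact Or.inl (hUK s (by simp [h]))
          · rcases List.mem_cons.1 h with rfl | h
            · exact Or.inl (hUK s (by simp))
            · exact Or.inr h)
        (fun s hs ↦ Or.inl (hLK s hs))
        (by
          intro a b hab
          constructor
          · rintro rfl
            exact hdis a hab.mem.1 (by simp)
          · rintro rfl
            exact hdis b hab.mem.2 (by simp))
        (by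
          intro a b hab
          constructor
          · rintro rfl
            exact hdis a (by simp) (List.mem_cons_of_mem _ hab.mem.1)
          · rintro rfl
            exact hdis b (by simp) (List.mem_cons_of_mem _ hab.mem.2))
      have hKe : insert w (K ∪ {s | s ∈ c :: C}) = K ∪ {s | s ∈ w :: c :: C} := by
        ext s
        simp only [List.mem_cons, Set.mem_insert_iff, Set.mem_union, Set.mem_ofPred_eq]
        tauto
      rw [hKe] at hU2 hL2
      refine ⟨y2, ?_, hU2, hL2, hF2⟩
      intro s hs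
      have hsw : s ≠ w := by
        rintro rfl
        rcases hs with h | h
        · exact h (by simp)
        · exact hwr h
      rw [hy2 s hsw]
      refine hy1 s ?_
      rcases hs with h | h
      · exact Or.inl fun h' ↦ h (List.mem_cons_of_mem _ h')
      · exact Or.inr h

end Fill

/-- The old upper chain with the straight edge `p r` in place of the new vertices. -/
theorem half0 {K' K0 : Set V} {U₁ L₁ : List V} {p q v r : V} {x y y0 : V → ℝ}
    (hU : UpOK K' x y (U₁ ++ [p, v])) (hL : UpOK K' x (-y) (L₁ ++ [q, v]))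
    (hy0 : ∀ s ∈ K', y0 s = y s)
    (hUK : ∀ s ∈ U₁ ++ [p, v], s ∈ K') (hLK : ∀ s ∈ L₁ ++ [q, v], s ∈ K')
    (hK0 : ∀ s, s ∈ K0 ↔ s ∈ U₁ ++ [p] ∨ s ∈ L₁ ++ [q] ∨ s = r)
    (PU1 : ∀ a b, Consec (U₁ ++ [p]) a b → r ≠ a → r ≠ b → det3 x y0 a b r < 0)
    (PU3 : p ≠ r → det3 x y0 p v r < 0)
    (PL1 : ∀ a b, Consec (L₁ ++ [q]) a b → r ≠ a → r ≠ b → det3 x (-y0) a b r < 0)
    (PL3 : q ≠ r → det3 x (-y0) q v r < 0)
    (inj : ∀ s ∈ K0, x s = x p → s = p)
    (rmax : ∀ s ∈ K0, s ≠ r → x s < x r)
    (hpmax : ∀ s ∈ U₁, x s < x p)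
    (hnl : ∀ s ∈ K0, x s < x p → U₁ ≠ [])
    (hnd : (U₁ ++ [p]).Nodup) (hrU : r ∉ U₁) :
    UpOK K0 x y0 (U₁ ++ [p]) ∧ (p ≠ r → UpOK K0 x y0 (U₁ ++ [p, r]) ∧ 0 < det3 x y0 p r v) := by
  have sub1 : ∀ s ∈ U₁ ++ [p], s ∈ K' := by
    intro s hs
    refine hUK s ?_
    simp only [List.mem_append, List.mem_cons, List.not_mem_nil, or_false] at hs ⊢
    tauto
  have sub2 : ∀ s ∈ L₁ ++ [q], s ∈ K' := by
    intro s hs
    refine hLK s ?_
    simp only [List.mem_append, List.mem_cons, List.not_mem_nil, or_false] at hs ⊢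
    tauto
  have conU : ∀ a b, Consec (U₁ ++ [p]) a b → Consec (U₁ ++ [p, v]) a b :=
    fun a b hab ↦ (consec_append U₁ p [v] a b).2 (Or.inl hab)
  have conL : ∀ a b, Consec (L₁ ++ [q]) a b → Consec (L₁ ++ [q, v]) a b :=
    fun a b hab ↦ (consec_append L₁ q [v] a b).2 (Or.inl hab)
  have d0 : ∀ a b s, a ∈ K' → b ∈ K' → s ∈ K' → det3 x y0 a b s = det3 x y a b s := by
    intro a b s ha hb hs
    unfold det3
    rw [hy0 a ha, hy0 b hb, hy0 s hs]
  have d0' : ∀ a b s, a ∈ K' → b ∈ K' → s ∈ K' →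
      det3 x (-y0) a b s = det3 x (-y) a b s := by
    intro a b s ha hb hs
    rw [det3_neg, det3_neg, d0 a b s ha hb hs]
  have base : UpOK K0 x y0 (U₁ ++ [p]) := by
    intro a b hab
    refine ⟨(hU a b (conU a b hab)).1, fun s hs hsa hsb ↦ ?_⟩
    by_cases hsr : s = r
    · subst hsr
      exact PU1 a b hab hsa hsb
    · have hsK : s ∈ K' := by
        rcases (hK0 s).1 hs with h | h | h
        · exact sub1 s h
        · exact sub2 s h
        · exact absurd h hsr
      rw [d0 a b s (sub1 a hab.mem.1) (sub1 b hab.mem.2) hsK]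
      exact (hU a b (conU a b hab)).2 s hsK hsa hsb
  refine ⟨base, fun hpr ↦ ?_⟩
  have hpK0 : p ∈ K0 := (hK0 p).2 (Or.inl (by simp))
  have hxpr : x p < x r := rmax p hpK0 hpr
  refine ⟨?_, ?_⟩
  · intro a b hab
    rcases (consec_append U₁ p [r] a b).1 hab with hab | hab
    · exact base a b hab
    simp only [consec_cons, consec_single, or_false] at hab
    obtain ⟨rfl, rfl⟩ := hab
    refine ⟨hxpr, fun s hs hsp hsr ↦ ?_⟩
    rcases lt_trichotomy (x s) (x a) with h | h | h
    · obtain ⟨o, ho⟩ := exists_consec_left' (hnl s hs h) hnd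
      have ho1 : x o < x a := (base o a ho).1
      have hro : b ≠ o := by
        rintro rfl
        rcases List.mem_append.1 ho.mem.1 with h' | h'
        · exact hrU h'
        · simp only [List.mem_singleton] at h'
          exact hpr h'.symm
      exact slope_left ho1 h hxpr (base.le ho hs) (PU1 o a ho hro (Ne.symm hpr))
    · exact absurd (inj s hs h) hsp
    · have hsL : s ∈ L₁ ++ [q] := by
        rcases (hK0 s).1 hs with h' | h' | h'
        · rcases List.mem_append.1 h' with h' | h'
          · exact absurd (hpmax s h') (not_lt.2 h.le)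
          · simp only [List.mem_singleton] at h'
            exact absurd h' hsp
        · exact h'
        · exact absurd h' hsr
      have hlast : (L₁ ++ [q, v]).getLast? = some v := by simp
      have hsL' : s ∈ L₁ ++ [q, v] := by
        simp only [List.mem_append, List.mem_cons, List.not_mem_nil, or_false] at hsL ⊢
        tauto
      have hpK' : a ∈ K' := sub1 a (by simp)
      -- the successor of `s` on the lower chain
      have hsucc : ∃ s', Consec (L₁ ++ [q, v]) s s' := by
        by_cases hsq : s = q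
        · subst hsq
          exact ⟨v, (consec_append L₁ s [v] s v).2 (Or.inr (Or.inl ⟨rfl, rfl⟩))⟩
        · have hlast' : (L₁ ++ [q]).getLast? = some q := by simp
          obtain ⟨s', hs'⟩ := exists_consec' hlast' hsL hsq
          exact ⟨s', conL _ _ hs'⟩
      obtain ⟨s', hs'⟩ := hsucc
      have hss' : x s < x s' := (hL s s' hs').1
      have hs'K : s' ∈ K' := hLK s' hs'.mem.2
      have hsK' : s ∈ K' := hLK s hs'.mem.1
      have h4 : 0 < det3 x y0 s s' a := by
        have h5 := (hL s s' hs').2 a hpK' (by rintro rfl; exact lt_irrefl _ h)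
          (by rintro rfl; exact lt_irrefl _ (h.trans hss'))
        rw [← d0' s s' a hsK' hs'K hpK', det3_neg] at h5
        linarith
      have h6 : 0 ≤ det3 x y0 s s' b := by
        rcases (consec_append L₁ q [v] s s').1 hs' with hs'' | hs''
        · by_cases hrs' : b = s'
          · subst hrs'
            simp
          · have h7 := PL1 s s' hs'' (Ne.symm hsr) hrs'
            rw [det3_neg] at h7
            linarith
        · simp only [consec_cons, consec_single, or_false] at hs''
          obtain ⟨rfl, rfl⟩ := hs''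
          have h7 := PL3 hsr
          rw [det3_neg] at h7
          linarith
      exact slope_mid h (rmax s hs hsr) hss' h4 h6
  · rw [det3_swap]
    have := PU3 hpr
    linarith

/-- A height for the right end `r` of the old point set. -/
theorem choose_r {K' : Set V} {U₁ L₁ : List V} {p q v r : V} {x y : V → ℝ}
    (hU : UpOK K' x y (U₁ ++ [p, v])) (hL : UpOK K' x (-y) (L₁ ++ [q, v]))
    (hUK : ∀ s ∈ U₁ ++ [p, v], s ∈ K') (hLK : ∀ s ∈ L₁ ++ [q, v], s ∈ K')
    (hpq : p ≠ q) (hvr : r ≠ v) (hvU : v ∉ U₁ ++ [p]) (hvL : v ∉ L₁ ++ [q])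
    (xp : p ≠ r → x p < x r) (xq : q ≠ r → x q < x r) (xv : x r < x v) :
    ∃ y0 : V → ℝ, (∀ s, s ≠ r → y0 s = y s) ∧ (∀ s ∈ K', y0 s = y s) ∧
      (∀ a b, Consec (U₁ ++ [p]) a b → r ≠ a → r ≠ b → det3 x y0 a b r < 0) ∧
      (p ≠ r → det3 x y0 p v r < 0) ∧
      (∀ a b, Consec (L₁ ++ [q]) a b → r ≠ a → r ≠ b → det3 x (-y0) a b r < 0) ∧
      (q ≠ r → det3 x (-y0) q v r < 0) := by
  have conU : ∀ a b, Consec (U₁ ++ [p]) a b → Consec (U₁ ++ [p, v]) a b :=
    fun a b hab ↦ (consec_append U₁ p [v] a b).2 (Or.inl hab)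
  have conL : ∀ a b, Consec (L₁ ++ [q]) a b → Consec (L₁ ++ [q, v]) a b :=
    fun a b hab ↦ (consec_append L₁ q [v] a b).2 (Or.inl hab)
  have conUv : Consec (U₁ ++ [p, v]) p v :=
    (consec_append U₁ p [v] p v).2 (Or.inr (Or.inl ⟨rfl, rfl⟩))
  have conLv : Consec (L₁ ++ [q, v]) q v :=
    (consec_append L₁ q [v] q v).2 (Or.inr (Or.inl ⟨rfl, rfl⟩))
  have hpK : p ∈ K' := hUK p (by simp)
  have hqK : q ∈ K' := hLK q (by simp)
  have hvK : v ∈ K' := hUK v (by simp)
  by_cases hr : r ∈ K'
  · refine ⟨y, fun _ _ ↦ rfl, fun _ _ ↦ rfl, ?_, ?_, ?_, ?_⟩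
    · intro a b hab h1 h2
      exact (hU a b (conU a b hab)).2 r hr h1 h2
    · intro hpr
      exact (hU p v conUv).2 r hr (Ne.symm hpr) hvr
    · intro a b hab h1 h2
      exact (hL a b (conL a b hab)).2 r hr h1 h2
    · intro hqr
      exact (hL q v conLv).2 r hr (Ne.symm hqr) hvr
  have hpr : p ≠ r := by rintro rfl; exact hr hpK
  have hqr : q ≠ r := by rintro rfl; exact hr hqK
  have xp := xp hpr
  have xq := xq hqr
  classical
  set θ : ℝ := (x r - x p) / (x v - x p) with hθ
  set κ : ℝ := (x r - x q) / (x v - x q) with hκ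
  have hvp : 0 < x v - x p := by linarith
  have hvq : 0 < x v - x q := by linarith
  have hθ0 : 0 < θ := div_pos (by linarith) hvp
  have hθ1 : θ < 1 := by rw [hθ, div_lt_one hvp]; linarith
  have hκ0 : 0 < κ := div_pos (by linarith) hvq
  have hκ1 : κ < 1 := by rw [hκ, div_lt_one hvq]; linarith
  have e1 : x r = x p + θ * (x v - x p) := by rw [hθ, div_mul_cancel₀ _ hvp.ne']; ring
  have e2 : x r = x q + κ * (x v - x q) := by rw [hκ, div_mul_cancel₀ _ hvq.ne']; ring
  have e3 : x r = ((x p + θ * (x v - x p)) + (x q + κ * (x v - x q))) / 2 := by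
    rw [← e1, ← e2]; ring
  set m : ℝ := ((y p + θ * (y v - y p)) + (y q + κ * (y v - y q))) / 2 with hm
  let y0 : V → ℝ := Function.update y r m
  have hy0 : ∀ s, s ≠ r → y0 s = y s := fun s hs ↦ Function.update_of_ne hs _ _
  have hyr : y0 r = m := Function.update_self _ _ _
  have hKr : ∀ s ∈ K', s ≠ r := fun s hs h ↦ hr (h ▸ hs)
  have key : ∀ a b, a ≠ r → b ≠ r → det3 x y0 a b r =
      (((1 - θ) * det3 x y a b p + θ * det3 x y a b v) +
        ((1 - κ) * det3 x y a b q + κ * det3 x y a b v)) / 2 := by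
    intro a b ha hb
    unfold det3
    rw [hy0 a ha, hy0 b hb, hyr, hm, e3]
    ring
  refine ⟨y0, hy0, fun s hs ↦ hy0 s (hKr s hs), ?_, ?_, ?_, ?_⟩
  · intro a b hab h1 h2
    rw [key a b (Ne.symm h1) (Ne.symm h2)]
    have g1 := hU.le (conU a b hab) hpK
    have g2 := hU.le (conU a b hab) hqK
    have g3 := (hU a b (conU a b hab)).2 v hvK (by rintro rfl; exact hvU hab.mem.1)
      (by rintro rfl; exact hvU hab.mem.2)
    have g4 : (1 - θ) * det3 x y a b p ≤ 0 :=
      mul_nonpos_of_nonneg_of_nonpos (by linarith) g1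
    have g5 : (1 - κ) * det3 x y a b q ≤ 0 :=
      mul_nonpos_of_nonneg_of_nonpos (by linarith) g2
    have g6 : θ * det3 x y a b v < 0 := mul_neg_of_pos_of_neg hθ0 g3
    have g7 : κ * det3 x y a b v < 0 := mul_neg_of_pos_of_neg hκ0 g3
    linarith
  · intro _
    rw [key p v hpr (Ne.symm hvr)]
    have g1 := (hU p v conUv).2 q hqK (Ne.symm hpq) (by rintro rfl; exact hvL (by simp))
    have g2 : (1 - κ) * det3 x y p v q < 0 := mul_neg_of_pos_of_neg (by linarith) g1
    simp only [det3_self, det3_self', mul_zero]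
    linarith
  · intro a b hab h1 h2
    rw [det3_neg, key a b (Ne.symm h1) (Ne.symm h2)]
    have g1 := hL.le (conL a b hab) hpK
    have g2 := hL.le (conL a b hab) hqK
    have g3 := (hL a b (conL a b hab)).2 v hvK (by rintro rfl; exact hvL hab.mem.1)
      (by rintro rfl; exact hvL hab.mem.2)
    rw [det3_neg] at g1 g2 g3
    have g4 : 0 ≤ (1 - θ) * det3 x y a b p := mul_nonneg (by linarith) (by linarith)
    have g5 : 0 ≤ (1 - κ) * det3 x y a b q := mul_nonneg (by linarith) (by linarith)
    have g6 : 0 < θ * det3 x y a b v := mul_pos hθ0 (by linarith)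
    have g7 : 0 < κ * det3 x y a b v := mul_pos hκ0 (by linarith)
    linarith
  · intro _
    rw [det3_neg, key q v hqr (Ne.symm hvr)]
    have g1 := (hL q v conLv).2 p hpK hpq (by rintro rfl; exact hvU (by simp))
    rw [det3_neg] at g1
    have g2 : 0 < (1 - θ) * det3 x y q v p := mul_pos (by linarith) (by linarith)
    simp only [det3_self, det3_self', mul_zero]
    linarith

theorem consec_of_pairwise {R : V → V → Prop} {l : List V} (h : l.Pairwise R) {a b : V}
    (hab : Consec l a b) : R a b := by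
  induction l with
  | nil => exact hab.elim
  | cons c l ih =>
    cases l with
    | nil => exact hab.elim
    | cons d l =>
      rcases hab with ⟨rfl, rfl⟩ | hab
      · exact (List.pairwise_cons.1 h).1 _ (by simp)
      · exact ih (List.pairwise_cons.1 h).2 hab

/-- The boundary chains `U`, `L` of the points in `O` run from the leftmost point `l` to the
rightmost point `r`. -/
structure Chains (x : V → ℝ) (O : Set V) (U L : List V) (l r : V) : Prop where
  hUl : U.head? = some l
  hLl : L.head? = some l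
  hUr : U.getLast? = some r
  hLr : L.getLast? = some r
  lr : l ≠ r
  UO : ∀ s ∈ U, s ∈ O
  LO : ∀ s ∈ L, s ∈ O
  disj : ∀ s ∈ U, s ∈ L → s = l ∨ s = r
  monoU : U.Pairwise (fun a b ↦ x a < x b)
  monoL : L.Pairwise (fun a b ↦ x a < x b)
  rmax : ∀ s ∈ O, s ≠ r → x s < x r
  lmin : ∀ s ∈ O, s ≠ l → x l < x s
  inj : ∀ s ∈ O, ∀ t ∈ O, x s = x t → s = t

theorem nodup_of_mono {x : V → ℝ} {U : List V} (h : U.Pairwise (fun a b ↦ x a < x b)) :
    U.Nodup := h.imp fun {a b} hab (h' : a = b) ↦ absurd (h' ▸ hab) (lt_irrefl _)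

theorem Chains.symm {x : V → ℝ} {O : Set V} {U L : List V} {l r : V}
    (h : Chains x O U L l r) : Chains x O L U l r :=
  ⟨h.hLl, h.hUl, h.hLr, h.hUr, h.lr, h.LO, h.UO, fun s h1 h2 ↦ h.disj s h2 h1, h.monoL, h.monoU,
    h.rmax, h.lmin, h.inj⟩

theorem Chains.ne {x : V → ℝ} {O : Set V} {U₁ U₃ L₁ L₃ : List V} {p q l r : V}
    (h : Chains x O (U₁ ++ p :: U₃) (L₁ ++ q :: L₃) l r) (h1 : ¬ (U₁ = [] ∧ L₁ = []))
    (h3 : ¬ (U₃ = [] ∧ L₃ = [])) : p ≠ q := by
  rintro rfl
  have hU := nodup_of_mono h.monoU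
  have hL := nodup_of_mono h.monoL
  have key1 : p = l → False := by
    intro hpl
    apply h1
    constructor
    · by_contra hne
      obtain ⟨c, A, rfl⟩ := List.exists_cons_of_ne_nil hne
      have h2 := h.hUl
      simp only [List.cons_append, List.head?_cons, Option.some.injEq] at h2
      subst h2
      subst hpl
      simp at hU
    · by_contra hne
      obtain ⟨c, A, rfl⟩ := List.exists_cons_of_ne_nil hne
      have h2 := h.hLl
      simp only [List.cons_append, List.head?_cons, Option.some.injEq] at h2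
      subst h2
      subst hpl
      simp at hL
  have key2 : ∀ (A B : List V) (p r : V), (A ++ p :: B).Nodup →
      (A ++ p :: B).getLast? = some r → p = r → B = [] := by
    intro A B p r hn hg hpr
    by_contra hne
    obtain ⟨c, B', rfl⟩ := List.exists_cons_of_ne_nil hne
    rw [List.getLast?_append_of_ne_nil _ (by simp), List.getLast?_cons_cons] at hg
    have h2 : r ∈ c :: B' := List.mem_of_getLast? hg
    rw [← hpr] at h2
    have := (List.nodup_append.1 hn).2.1
    exact (List.nodup_cons.1 this).1 h2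
  rcases h.disj p (by simp) (by simp) with h2 | h2
  · exact key1 h2
  · exact h3 ⟨key2 _ _ _ _ hU h.hUr h2, key2 _ _ _ _ hL h.hLr h2⟩

/-- Fill in the new vertices of one of the two chains. -/
theorem fill_half [Finite V] {K : Set V} {U₁ U₃ Lr : List V} {p r v : V} {x y0 : V → ℝ}
    (hU3 : (p :: U₃).getLast? = some r)
    (hU : U₃ = [] → UpOK K x y0 (U₁ ++ [p]))
    (hU' : U₃ ≠ [] → UpOK K x y0 (U₁ ++ [p, r]) ∧ 0 < det3 x y0 p r v)
    (hL : UpOK K x (-y0) Lr) (hLK : ∀ s ∈ Lr, s ∈ K) (hUK : ∀ s ∈ U₁ ++ [p], s ∈ K)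
    (hrK : r ∈ K) (hmono : (U₁ ++ p :: U₃).Pairwise (fun a b ↦ x a < x b))
    (hnew : ∀ w ∈ U₃, w ≠ r → w ∉ K ∧ w ≠ v) :
    ∃ y1 : V → ℝ, (∀ s, (s ∉ U₃ ∨ s = r) → y1 s = y0 s) ∧
      UpOK (K ∪ {s | s ∈ U₃}) x y1 (U₁ ++ p :: U₃) ∧ UpOK (K ∪ {s | s ∈ U₃}) x (-y1) Lr ∧
      ∀ a b, Consec (p :: U₃) a b → 0 < det3 x y1 a b v := by
  by_cases h : U₃ = []
  · subst h
    have hKe : K ∪ {s | s ∈ ([] : List V)} = K := by
      ext s; simp
    rw [hKe]
    exact ⟨y0, fun _ _ ↦ rfl, hU rfl, hL, fun a b hab ↦ hab.elim⟩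
  · obtain ⟨h1, h2⟩ := hU' h
    have hr : U₃.getLast? = some r := by
      obtain ⟨c, A, rfl⟩ := List.exists_cons_of_ne_nil h
      rwa [List.getLast?_cons_cons] at hU3
    have hnd : (U₁ ++ p :: U₃).Nodup := nodup_of_mono hmono
    have hnd' : (p :: U₃).Nodup := (List.nodup_append.1 hnd).2.1
    have hdis : ∀ s ∈ U₁ ++ [p], s ∉ U₃ := by
      intro s hs hs3
      rcases List.mem_append.1 hs with h' | h'
      · exact (List.nodup_append.1 hnd).2.2 s h' s (List.mem_cons_of_mem _ hs3) rfl
      · simp only [List.mem_singleton] at h'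
        subst h'
        exact (List.nodup_cons.1 hnd').1 hs3
    have hmono' : ∀ a b, Consec (p :: U₃) a b → x a < x b := fun a b hab ↦
      consec_of_pairwise (List.pairwise_append.1 hmono).2.1 hab
    obtain ⟨y1, g1, g2, g3, g4⟩ := fill (F := {v}) U₁ Lr p r x y0 U₃ hr h1 hL
      (by rintro _ rfl; exact h2) hmono'
      (fun w hw hwr ↦ ⟨(hnew w hw hwr).1, fun h' ↦ (hnew w hw hwr).2 h'⟩)
      (List.nodup_cons.1 hnd').2
      (by
        intro s hs
        rcases List.mem_append.1 hs with h' | h'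
        · exact hUK s (by simp [h'])
        · simp only [List.mem_cons, List.not_mem_nil, or_false] at h'
          rcases h' with rfl | rfl
          · exact hUK s (by simp)
          · exact hrK) hLK hdis
    exact ⟨y1, g1, g2, g3, g4 v rfl⟩

theorem mem_head_sub {A B : List V} {p s : V} (h : s ∈ A ++ [p]) : s ∈ A ++ p :: B := by
  rcases List.mem_append.1 h with h | h
  · exact List.mem_append_left _ h
  · refine List.mem_append_right _ ?_
    rw [List.mem_singleton.1 h]
    exact List.mem_cons_self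

/-- Removing the last vertex `v`: heights for the old boundary chains. -/
theorem topdown [Finite V] {x y : V → ℝ} {O : Set V} {U₁ U₃ L₁ L₃ : List V} {p q v l r : V}
    (C : Chains x O (U₁ ++ p :: U₃) (L₁ ++ q :: L₃) l r) (hvO : v ∉ O) (hxv : x r < x v)
    (h1 : ¬ (U₁ = [] ∧ L₁ = [])) (h3 : ¬ (U₃ = [] ∧ L₃ = []))
    (H : HullOn {s | s ∈ U₁ ++ [p, v] ∨ s ∈ L₁ ++ [q, v]} x y (U₁ ++ [p, v]) (L₁ ++ [q, v])) :
    ∃ y' : V → ℝ, (∀ s, s ∈ U₁ ++ [p, v] ∨ s ∈ L₁ ++ [q, v] → y' s = y s) ∧
      HullOn {s | s ∈ U₁ ++ p :: U₃ ∨ s ∈ L₁ ++ q :: L₃} x y'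
        (U₁ ++ p :: U₃) (L₁ ++ q :: L₃) ∧
      (∀ a b, Consec (p :: U₃) a b → 0 < det3 x y' a b v) ∧
      (∀ a b, Consec (q :: L₃) a b → 0 < det3 x (-y') a b v) := by
  have hpq : p ≠ q := C.ne h1 h3
  have hpO : p ∈ O := C.UO p (by simp)
  have hqO : q ∈ O := C.LO q (by simp)
  have hUr : (p :: U₃).getLast? = some r := by
    have := C.hUr
    rwa [List.getLast?_append_of_ne_nil _ (by simp)] at this
  have hLr : (q :: L₃).getLast? = some r := by
    have := C.hLr
    rwa [List.getLast?_append_of_ne_nil _ (by simp)] at this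
  have hrU : r ∈ p :: U₃ := List.mem_of_getLast? hUr
  have hrL : r ∈ q :: L₃ := List.mem_of_getLast? hLr
  have hrO : r ∈ O := C.UO r (List.mem_append_right _ hrU)
  have hrv : r ≠ v := by rintro rfl; exact hvO hrO
  have hndU := nodup_of_mono C.monoU
  have hndL := nodup_of_mono C.monoL
  have hU3p : U₃ = [] → p = r := by
    rintro rfl
    simpa using hUr
  have hL3q : L₃ = [] → q = r := by
    rintro rfl
    simpa using hLr
  have hpU3 : p = r → U₃ = [] := by
    intro hpr
    by_contra hne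
    obtain ⟨c, A, rfl⟩ := List.exists_cons_of_ne_nil hne
    rw [List.getLast?_cons_cons] at hUr
    have h2 : r ∈ c :: A := List.mem_of_getLast? hUr
    rw [← hpr] at h2
    exact (List.nodup_cons.1 (List.nodup_append.1 hndU).2.1).1 h2
  have hqL3 : q = r → L₃ = [] := by
    intro hqr
    by_contra hne
    obtain ⟨c, A, rfl⟩ := List.exists_cons_of_ne_nil hne
    rw [List.getLast?_cons_cons] at hLr
    have h2 : r ∈ c :: A := List.mem_of_getLast? hLr
    rw [← hqr] at h2
    exact (List.nodup_cons.1 (List.nodup_append.1 hndL).2.1).1 h2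
  have hUsub : ∀ s ∈ U₁ ++ [p], s ∈ U₁ ++ p :: U₃ := fun s hs ↦ mem_head_sub hs
  have hLsub : ∀ s ∈ L₁ ++ [q], s ∈ L₁ ++ q :: L₃ := fun s hs ↦ mem_head_sub hs
  have hvU : v ∉ U₁ ++ [p] := fun h ↦ hvO (C.UO v (hUsub v h))
  have hvL : v ∉ L₁ ++ [q] := fun h ↦ hvO (C.LO v (hLsub v h))
  obtain ⟨y0, hy0r, hy0, PU1, PU3, PL1, PL3⟩ := choose_r (r := r) H.1 H.2
    (fun s hs ↦ Or.inl hs) (fun s hs ↦ Or.inr hs) hpq hrv hvU hvL
    (fun h ↦ C.rmax p hpO h) (fun h ↦ C.rmax q hqO h) hxv
  set K0 : Set V := {s | s ∈ U₁ ++ [p] ∨ s ∈ L₁ ++ [q] ∨ s = r} with hK0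
  have hK0O : ∀ s ∈ K0, s ∈ O := by
    rintro s (h | h | rfl)
    · exact C.UO s (hUsub s h)
    · exact C.LO s (hLsub s h)
    · exact hrO
  have hUU1 : ∀ s ∈ U₁, x s < x p := fun s hs ↦
    (List.pairwise_append.1 C.monoU).2.2 s hs p (by simp)
  have hLL1 : ∀ s ∈ L₁, x s < x q := fun s hs ↦
    (List.pairwise_append.1 C.monoL).2.2 s hs q (by simp)
  have hnl : ∀ s ∈ K0, x s < x p → U₁ ≠ [] := by
    rintro s hs hsp rfl
    have := C.hUl
    simp only [List.nil_append, List.head?_cons, Option.some.injEq] at this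
    subst this
    by_cases hsp' : s = p
    · subst hsp'; exact lt_irrefl _ hsp
    · exact absurd (C.lmin s (hK0O s hs) hsp') (not_lt.2 hsp.le)
  have hnl' : ∀ s ∈ K0, x s < x q → L₁ ≠ [] := by
    rintro s hs hsp rfl
    have := C.hLl
    simp only [List.nil_append, List.head?_cons, Option.some.injEq] at this
    subst this
    by_cases hsp' : s = q
    · subst hsp'; exact lt_irrefl _ hsp
    · exact absurd (C.lmin s (hK0O s hs) hsp') (not_lt.2 hsp.le)
  have hndU' : (U₁ ++ [p]).Nodup := by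
    have : (U₁ ++ [p]).Sublist (U₁ ++ p :: U₃) := by
      refine List.Sublist.append (List.Sublist.refl _) ?_
      simp
    exact this.nodup hndU
  have hndL' : (L₁ ++ [q]).Nodup := by
    have : (L₁ ++ [q]).Sublist (L₁ ++ q :: L₃) := by
      refine List.Sublist.append (List.Sublist.refl _) ?_
      simp
    exact this.nodup hndL
  have hrU1 : r ∉ U₁ := fun h ↦ (List.nodup_append.1 hndU).2.2 r h r hrU rfl
  have hrL1 : r ∉ L₁ := fun h ↦ (List.nodup_append.1 hndL).2.2 r h r hrL rfl
  obtain ⟨bU, cU⟩ := half0 (K0 := K0) (r := r) H.1 H.2 hy0 (fun s hs ↦ Or.inl hs)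
    (fun s hs ↦ Or.inr hs) (fun s ↦ Iff.rfl) PU1 PU3 PL1 PL3
    (fun s hs h ↦ C.inj s (hK0O s hs) p hpO h) (fun s hs h ↦ C.rmax s (hK0O s hs) h)
    hUU1 hnl hndU' hrU1
  have nn : UpOK {s | s ∈ U₁ ++ [p, v] ∨ s ∈ L₁ ++ [q, v]} x (- -y) (U₁ ++ [p, v]) := by
    rw [neg_neg]; exact H.1
  obtain ⟨bL, cL⟩ := half0 (K0 := K0) (r := r) H.2 nn (y0 := -y0)
    (fun s hs ↦ by rw [Pi.neg_apply, Pi.neg_apply, hy0 s hs]) (fun s hs ↦ Or.inr hs)
    (fun s hs ↦ Or.inl hs) (fun s ↦ or_left_comm) PL1 PL3 (by rw [neg_neg]; exact PU1) (by rw [neg_neg]; exact PU3)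
    (fun s hs h ↦ C.inj s (hK0O s hs) q hqO h) (fun s hs h ↦ C.rmax s (hK0O s hs) h)
    hLL1 hnl' hndL' hrL1
  -- the lower list before filling
  obtain ⟨Lr, hLr1, hLr2, hLr3, hLrK⟩ : ∃ Lr : List V, UpOK K0 x (-y0) Lr ∧
      (L₃ = [] → Lr = L₁ ++ [q]) ∧ (L₃ ≠ [] → Lr = L₁ ++ [q, r]) ∧ ∀ s ∈ Lr, s ∈ K0 := by
    by_cases hL3 : L₃ = []
    · exact ⟨L₁ ++ [q], bL, fun _ ↦ rfl, fun h ↦ absurd hL3 h, fun s hs ↦ Or.inr (Or.inl hs)⟩
    · refine ⟨L₁ ++ [q, r], (cL fun h ↦ hL3 (hqL3 h)).1, fun h ↦ absurd h hL3, fun _ ↦ rfl, ?_⟩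
      intro s hs
      simp only [List.mem_append, List.mem_cons, List.not_mem_nil, or_false] at hs
      rcases hs with h | h | h
      · exact Or.inr (Or.inl (List.mem_append_left _ h))
      · exact Or.inr (Or.inl (by simp [h]))
      · exact Or.inr (Or.inr h)
  have hnewU : ∀ w ∈ U₃, w ≠ r → w ∉ K0 ∧ w ≠ v := by
    intro w hw hwr
    have hwO : w ∈ O := C.UO w (by simp [hw])
    have hwU : w ∈ U₁ ++ p :: U₃ := by simp [hw]
    have hwU1 : w ∉ U₁ ++ [p] := by
      intro h
      rcases List.mem_append.1 h with h' | h'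
      · exact (List.nodup_append.1 hndU).2.2 w h' w (List.mem_cons_of_mem _ hw) rfl
      · simp only [List.mem_singleton] at h'
        subst h'
        exact (List.nodup_cons.1 (List.nodup_append.1 hndU).2.1).1 hw
    refine ⟨?_, by rintro rfl; exact hvO hwO⟩
    rintro (h | h | h)
    · exact hwU1 h
    · rcases C.disj w hwU (hLsub w h) with h' | h'
      · -- w = l is impossible
        subst h'
        have h5 := C.hUl
        cases U₁ with
        | nil =>
          simp only [List.nil_append, List.head?_cons, Option.some.injEq] at h5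
          exact hwU1 (by simp [h5])
        | cons c A =>
          simp only [List.cons_append, List.head?_cons, Option.some.injEq] at h5
          exact hwU1 (by simp [h5])
      · exact hwr h'
    · exact hwr h
  have hnewL : ∀ w ∈ L₃, w ≠ r → w ∉ K0 ∪ {s | s ∈ U₃} ∧ w ≠ v := by
    intro w hw hwr
    have hwO : w ∈ O := C.LO w (by simp [hw])
    have hwL : w ∈ L₁ ++ q :: L₃ := by simp [hw]
    have hwL1 : w ∉ L₁ ++ [q] := by
      intro h
      rcases List.mem_append.1 h with h' | h'
      · exact (List.nodup_append.1 hndL).2.2 w h' w (List.mem_cons_of_mem _ hw) rfl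
      · simp only [List.mem_singleton] at h'
        subst h'
        exact (List.nodup_cons.1 (List.nodup_append.1 hndL).2.1).1 hw
    have hwU : w ∉ U₁ ++ p :: U₃ := by
      intro h
      rcases C.disj w h hwL with h' | h'
      · subst h'
        have h5 := C.hLl
        cases L₁ with
        | nil =>
          simp only [List.nil_append, List.head?_cons, Option.some.injEq] at h5
          exact hwL1 (by simp [h5])
        | cons c A =>
          simp only [List.cons_append, List.head?_cons, Option.some.injEq] at h5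
          exact hwL1 (by simp [h5])
      · exact hwr h'
    refine ⟨?_, by rintro rfl; exact hvO hwO⟩
    rintro ((h | h | h) | h)
    · exact hwU (hUsub w h)
    · exact hwL1 h
    · exact hwr h
    · exact hwU (by
        have : w ∈ U₃ := h
        simp [this])
  obtain ⟨y1, k1, k2, k3, k4⟩ := fill_half (K := K0) (U₁ := U₁) (U₃ := U₃) (Lr := Lr) (p := p)
    (r := r) (v := v) (y0 := y0) hUr (fun _ ↦ bU) (fun h ↦ cU fun h' ↦ h (hpU3 h')) hLr1 hLrK
    (fun s hs ↦ Or.inl hs) (Or.inr (Or.inr rfl)) C.monoU hnewU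
  have hy1 : ∀ s, s ∉ U₃ ∨ s = r → (-y1) s = (-y0) s := fun s hs ↦ by
    rw [Pi.neg_apply, Pi.neg_apply, k1 s hs]
  have hqU3 : q ∉ U₃ ∨ q = r := by
    by_cases h : q = r
    · exact Or.inr h
    · left
      intro h'
      exact (hnewU q h' h).1 (Or.inr (Or.inl (by simp)))
  have hvU3 : v ∉ U₃ ∨ v = r := Or.inl fun h ↦ hvO (C.UO v (by simp [h]))
  obtain ⟨y2, m1, m2, m3, m4⟩ := fill_half (K := K0 ∪ {s | s ∈ U₃}) (U₁ := L₁) (U₃ := L₃)
    (Lr := U₁ ++ p :: U₃) (p := q) (r := r) (v := v) (y0 := -y1) hLr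
    (fun h ↦ by rw [← hLr2 h]; exact k3)
    (fun h ↦ ⟨by rw [← hLr3 h]; exact k3, by
      have h5 := (cL fun h' ↦ h (hqL3 h')).2
      have h6 : det3 x (-y1) q r v = det3 x (-y0) q r v := by
        unfold det3
        rw [hy1 q hqU3, hy1 v hvU3, hy1 r (Or.inr rfl)]
      rw [h6]
      exact h5⟩)
    (by rw [neg_neg]; exact k2)
    (by
      intro s hs
      rcases List.mem_append.1 hs with h | h
      · exact Or.inl (Or.inl (by simp [h]))
      · rcases List.mem_cons.1 h with rfl | h
        · exact Or.inl (Or.inl (by simp))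
        · exact Or.inr h)
    (fun s hs ↦ Or.inl (Or.inr (Or.inl hs))) (Or.inl (Or.inr (Or.inr rfl))) C.monoL hnewL
  refine ⟨-y2, ?_, ⟨?_, ?_⟩, ?_, ?_⟩
  · intro s hs
    have hsU3 : s ∉ U₃ ∨ s = r := by
      by_cases hsr : s = r
      · exact Or.inr hsr
      · left
        intro h'
        have h5 := hnewU s h' hsr
        rcases hs with h | h
        · simp only [List.mem_append, List.mem_cons, List.not_mem_nil, or_false] at h
          rcases h with h | h | h
          · exact h5.1 (Or.inl (by simp [h]))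
          · exact h5.1 (Or.inl (by simp [h]))
          · exact h5.2 h
        · simp only [List.mem_append, List.mem_cons, List.not_mem_nil, or_false] at h
          rcases h with h | h | h
          · exact h5.1 (Or.inr (Or.inl (by simp [h])))
          · exact h5.1 (Or.inr (Or.inl (by simp [h])))
          · exact h5.2 h
    have hsL3 : s ∉ L₃ ∨ s = r := by
      by_cases hsr : s = r
      · exact Or.inr hsr
      · left
        intro h'
        have h5 := hnewL s h' hsr
        rcases hs with h | h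
        · simp only [List.mem_append, List.mem_cons, List.not_mem_nil, or_false] at h
          rcases h with h | h | h
          · exact h5.1 (Or.inl (Or.inl (by simp [h])))
          · exact h5.1 (Or.inl (Or.inl (by simp [h])))
          · exact h5.2 h
        · simp only [List.mem_append, List.mem_cons, List.not_mem_nil, or_false] at h
          rcases h with h | h | h
          · exact h5.1 (Or.inl (Or.inr (Or.inl (by simp [h]))))
          · exact h5.1 (Or.inl (Or.inr (Or.inl (by simp [h]))))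
          · exact h5.2 h
    rw [Pi.neg_apply, m1 s hsL3, Pi.neg_apply, neg_neg, k1 s hsU3]
    exact hy0 s hs
  · refine UpOK.mono m3 ?_
    rintro s (h | h)
    · rcases List.mem_append.1 h with h | h
      · exact Or.inl (Or.inl (Or.inl (by simp [h])))
      · rcases List.mem_cons.1 h with rfl | h
        · exact Or.inl (Or.inl (Or.inl (by simp)))
        · exact Or.inl (Or.inr h)
    · rcases List.mem_append.1 h with h | h
      · exact Or.inl (Or.inl (Or.inr (Or.inl (by simp [h]))))
      · rcases List.mem_cons.1 h with rfl | h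
        · exact Or.inl (Or.inl (Or.inr (Or.inl (by simp))))
        · exact Or.inr h
  · rw [neg_neg]
    refine UpOK.mono m2 ?_
    rintro s (h | h)
    · rcases List.mem_append.1 h with h | h
      · exact Or.inl (Or.inl (Or.inl (by simp [h])))
      · rcases List.mem_cons.1 h with rfl | h
        · exact Or.inl (Or.inl (Or.inl (by simp)))
        · exact Or.inl (Or.inr h)
    · rcases List.mem_append.1 h with h | h
      · exact Or.inl (Or.inl (Or.inr (Or.inl (by simp [h]))))
      · rcases List.mem_cons.1 h with rfl | h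
        · exact Or.inl (Or.inl (Or.inr (Or.inl (by simp))))
        · exact Or.inr h
  · intro a b hab
    have h5 := k4 a b hab
    have key : ∀ s, s ∈ p :: U₃ ∨ s = v → (-y2) s = y1 s := by
      intro s hs
      have hsL3 : s ∉ L₃ ∨ s = r := by
        by_cases hsr : s = r
        · exact Or.inr hsr
        · left
          intro h'
          have h6 := hnewL s h' hsr
          rcases hs with h | h
          · rcases List.mem_cons.1 h with rfl | h
            · exact h6.1 (Or.inl (Or.inl (by simp)))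
            · exact h6.1 (Or.inr h)
          · exact h6.2 h
      rw [Pi.neg_apply, m1 s hsL3, Pi.neg_apply, neg_neg]
    unfold det3 at *
    rw [key a (Or.inl hab.mem.1), key b (Or.inl hab.mem.2), key v (Or.inr rfl)]
    exact h5
  · intro a b hab
    rw [neg_neg]
    exact m4 a b hab

end Pool.Agent.MP7a5e6cSEQ
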